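import Mathlib
import Pool.Agent.H366R3.ED.Fam
import Pool.Agent.H366R3.ED.NoSeq

/-!
Disks with any number of holes: shared definitions (the case of two holes is in
`Pool/Agent/H366R3/ED`).
-/

set_option autoImplicit false

open Set Filter Topology MeasureTheory Metric
open scoped ContDiff ENNReal NNReal ComplexConjugate Real

namespace Pool.Agent.H747ED

open Pool.Agent.H366R3.ED

variable {P : Finset ℝ} {σ : ℝ}

lemma mem_OmP {R ρ : ℝ} {w : ℂ} : w ∈ OmP P R ρ ↔ ‖w‖ < R ∧ ∀ c ∈ P, ρ < ‖w - (c : ℂ)‖ := Iff.rfl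

lemma OmP_sub (R ρ : ℝ) : OmP P R ρ ⊆ ball 0 R := fun z hz => by
  rw [mem_ball_zero_iff]; exact hz.1

lemma norm_cen (hS : Sep P σ) {c : ℝ} (hc : c ∈ P) : ‖(c : ℂ)‖ ≤ 1 / 2 := by
  rw [Complex.norm_real, Real.norm_of_nonneg (hS.ge c hc)]
  exact hS.le c hc

/-- points at distance less than `2 σ` from one centre are at distance more than `2 σ` from the
others -/
lemma far (hS : Sep P σ) {c c' : ℝ} (hc : c ∈ P) (hc' : c' ∈ P) (hne : c ≠ c') {z : ℂ}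
    (hz : ‖z - (c : ℂ)‖ < 2 * σ) : 2 * σ < ‖z - (c' : ℂ)‖ := by
  have h1 := tri2 c c' z
  have h2 := hS.sep c hc c' hc' hne
  linarith

/-- points of norm more than `3 / 4` are at distance more than `1 / 4` from every centre -/
lemma far_out (hS : Sep P σ) {c : ℝ} (hc : c ∈ P) {z : ℂ} (hz : 3 / 4 < ‖z‖) :
    1 / 4 < ‖z - (c : ℂ)‖ := by
  have := tri1 (hS.ge c hc) (hS.le c hc) z
  linarith

/-- a punctured neighbourhood of a centre -/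
lemma near_punctP (hS : Sep P σ) {c : ℝ} (hc : c ∈ P) {z : ℂ} (h1 : z ≠ (c : ℂ))
    (h2 : ‖z - (c : ℂ)‖ < 2 * σ) : z ∈ OmP P 1 0 := by
  refine ⟨?_, fun c' hc' => ?_⟩
  · have h3 := tri1 (hS.ge c hc) (hS.le c hc) z
    have := hS.le8
    linarith
  · by_cases h : c = c'
    · subst h
      exact norm_pos_iff.2 (sub_ne_zero.2 h1)
    · have := far hS hc hc' h h2
      linarith [hS.pos]

/-- decay at the punctures -/
def DecP (P : Finset ℝ) (f : ℂ → ℂ) : Prop :=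
  ∀ c ∈ P, ∀ ε > 0, ∀ᶠ z in 𝓝[≠] (c : ℂ), ‖f z‖ * ‖z - (c : ℂ)‖ ≤ ε

/-- a sequence of homeomorphisms of bounded energy converging to a holomorphic map -/
structure DataP (P : Finset ℝ) (σ : ℝ) (l : Ultrafilter ℕ) (ρ : ℕ → ℝ) (h g : ℕ → ℂ → ℂ)
    (k : ℂ → ℂ) : Prop where
  S : Sep P σ
  ρ0 : ∀ n, 0 < ρ n
  ρ8 : ∀ n, ρ n ≤ σ
  ρt : Tendsto ρ l (𝓝 0)
  H : ∀ n, IsH (OmP P 1 (ρ n)) (OmP P 4 (ρ n)) (h n) (g n)
  C1 : ∀ n, ContDiffOn ℝ 1 (h n) (OmP P 1 (ρ n))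
  mem : ∀ n, IntegrableOn (fun z => ‖fderiv ℝ (h n) z‖ ^ 2) (OmP P 1 (ρ n))
  en : ∀ n, ∫ z in OmP P 1 (ρ n), ‖fderiv ℝ (h n) z‖ ^ 2 ≤ 1600 * π
  cc : CC l (OmP P 1 0) h k
  hol : DifferentiableOn ℂ k (OmP P 1 0)
  area : ∀ K, IsCompact K → K ⊆ OmP P 1 0 → ∫ z in K, ‖deriv k z‖ ^ 2 ≤ 16 * π

end Pool.Agent.H747ED
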