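import Mathlib
import Pool.Agent.H747ED.K0

/-!
# Project EDK: the ends of the domains (helper171, after `Pool/Agent/H366R3/ED/Ends.lean`)
-/

set_option autoImplicit false

open Set Filter Topology Metric

namespace Pool.Agent.H747ED

open Pool.Agent.H366R3.ED

variable {P : Finset ℝ} {σ : ℝ}

/-- the collars of the ends -/
def colP (P : Finset ℝ) (R ρ ε : ℝ) : Option P → Set ℂ
  | none => annc 0 (R - ε) R
  | some c => annc ((c : ℝ) : ℂ) ρ (ρ + ε)

lemma colP_none (R ρ ε : ℝ) : colP P R ρ ε none = annc 0 (R - ε) R := rfl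

lemma colP_some (R ρ ε : ℝ) (c : P) :
    colP P R ρ ε (some c) = annc ((c : ℝ) : ℂ) ρ (ρ + ε) := rfl

lemma colP_open (R ρ ε : ℝ) (i : Option P) : IsOpen (colP P R ρ ε i) := by
  rcases i with _ | c <;> exact annc_open _ _ _

lemma colP_preconnected {R ρ ε : ℝ} (hR : 1 ≤ R) (hρ : 0 < ρ) (hε : ε ≤ 1 / 8) (i : Option P) :
    IsPreconnected (colP P R ρ ε i) := by
  rcases i with _ | c
  · exact annc_preconnected _ (by linarith)
  · exact annc_preconnected _ hρ.le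

lemma colP_nonempty {R ρ ε : ℝ} (hR : 1 ≤ R) (hρ : 0 < ρ) (hε0 : 0 < ε) (hε : ε ≤ 1 / 8)
    (i : Option P) : (colP P R ρ ε i).Nonempty := by
  rcases i with _ | c
  · exact annc_nonempty _ (by linarith) (by linarith)
  · exact annc_nonempty _ hρ.le (by linarith)

lemma colP_mono {R ρ ε ε' : ℝ} (h : ε ≤ ε') (i : Option P) :
    colP P R ρ ε i ⊆ colP P R ρ ε' i := by
  rcases i with _ | c
  · rintro z ⟨h1, h2⟩; exact ⟨by linarith, h2⟩
  · rintro z ⟨h1, h2⟩; exact ⟨h1, by linarith⟩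

lemma colP_sub (hS : Sep P σ) {R ρ ε : ℝ} (hR : 1 ≤ R) (hρσ : ρ ≤ σ)
    (hε : ε ≤ σ) (i : Option P) : colP P R ρ ε i ⊆ OmP P R ρ := by
  have h8 := hS.le8
  have hσ := hS.pos
  rcases i with _ | c
  · rintro z ⟨h1, h2⟩
    rw [sub_zero] at h1 h2
    refine ⟨h2, fun c hc => ?_⟩
    have := far_out hS hc (z := z) (by linarith)
    linarith
  · rintro z ⟨h1, h2⟩
    have h3 := tri1 (hS.ge c c.2) (hS.le c c.2) z
    refine ⟨by linarith, fun c' hc' => ?_⟩
    by_cases hcc : (c : ℝ) = c'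
    · rw [← hcc]; exact h1
    · have := far hS c.2 hc' hcc (z := z) (by linarith)
      linarith

lemma colP_disj (hS : Sep P σ) {R ρ ε ε' : ℝ} (hR : 1 ≤ R) (hρσ : ρ ≤ σ) (hε : ε ≤ σ)
    (hε' : ε' ≤ σ) {i j : Option P} (hij : i ≠ j) :
    Disjoint (colP P R ρ ε i) (colP P R ρ ε' j) := by
  have h8 := hS.le8
  have hσ := hS.pos
  rw [Set.disjoint_left]
  intro z hz hz'
  rcases i with _ | c <;> rcases j with _ | c'
  · exact hij rfl
  · obtain ⟨h1, h2⟩ := hz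
    obtain ⟨h3, h4⟩ := hz'
    rw [sub_zero] at h1 h2
    have := far_out hS c'.2 (z := z) (by linarith)
    linarith
  · obtain ⟨h1, h2⟩ := hz
    obtain ⟨h3, h4⟩ := hz'
    rw [sub_zero] at h3 h4
    have := far_out hS c.2 (z := z) (by linarith)
    linarith
  · obtain ⟨h1, h2⟩ := hz
    obtain ⟨h3, h4⟩ := hz'
    have hne : (c : ℝ) ≠ c' := fun h => hij (by rw [Subtype.ext h])
    have := far hS c.2 c'.2 hne (z := z) (by linarith)
    linarith

lemma endmapP (hS : Sep P σ) {R R' ρ ε' : ℝ} (hR : 1 ≤ R) (hR' : 1 ≤ R') (hρ : 0 < ρ)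
    (hρσ : ρ ≤ σ) (hε' : 0 < ε') (hε8 : ε' ≤ σ) {h g : ℂ → ℂ}
    (H : IsH (OmP P R ρ) (OmP P R' ρ) h g) :
    ∃ ε₀ : ℝ, 0 < ε₀ ∧ ε₀ ≤ σ ∧ ∀ ε, 0 < ε → ε ≤ ε₀ → ∀ i, ∃ t,
      MapsTo h (colP P R ρ ε i) (colP P R' ρ ε' t) := by
  have h8 := hS.le8
  have hσ := hS.pos
  set K : Set ℂ := {w | (∀ c ∈ P, ρ + ε' ≤ ‖w - (c : ℂ)‖) ∧ ‖w‖ ≤ R' - ε'} with hK
  have hKc : IsCompact K := by
    apply (isCompact_closedBall (0 : ℂ) (R' - ε')).of_isClosed_subset
    · have c1 : Continuous fun w : ℂ => ‖w‖ := continuous_norm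
      have e : K = (⋂ c ∈ P, {w : ℂ | ρ + ε' ≤ ‖w - (c : ℂ)‖}) ∩ {w : ℂ | ‖w‖ ≤ R' - ε'} := by
        ext w; simp [hK]
      rw [e]
      refine IsClosed.inter (isClosed_biInter fun c _ => ?_) (isClosed_le c1 continuous_const)
      have c2 : Continuous fun w : ℂ => ‖w - (c : ℂ)‖ := by fun_prop
      exact isClosed_le continuous_const c2
    · rintro w ⟨-, h3⟩
      rw [mem_closedBall_zero_iff]; exact h3
  have hKO : K ⊆ OmP P R' ρ := by
    rintro w ⟨h1, h3⟩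
    refine ⟨by linarith, fun c hc => ?_⟩
    have := h1 c hc
    linarith
  have hgK : IsCompact (g '' K) := hKc.image_of_continuousOn (H.gc.mono hKO)
  have hgO : g '' K ⊆ OmP P R ρ := by
    rintro z ⟨w, hw, rfl⟩; exact H.gm (hKO hw)
  obtain ⟨δ, hδ, hδO⟩ := hgK.exists_thickening_subset_open (OmP_open P R ρ) hgO
  refine ⟨min δ σ, lt_min hδ hσ, min_le_right _ _, ?_⟩
  intro ε hε hε0 i
  have hεδ : ε ≤ δ := hε0.trans (min_le_left _ _)
  have hεσ : ε ≤ σ := hε0.trans (min_le_right _ _)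
  have hε18 : ε ≤ 1 / 8 := hεσ.trans h8
  -- the collar does not meet the compact set
  have hmiss : ∀ z ∈ colP P R ρ ε i, z ∉ g '' K := by
    intro z hz hzK
    have hball : ∀ w, dist w z < δ → w ∈ OmP P R ρ := fun w hw =>
      hδO (mem_thickening_iff.2 ⟨z, hzK, hw⟩)
    rcases i with _ | c
    · obtain ⟨h1, h2⟩ := hz
      rw [sub_zero] at h1 h2
      have hz0 : 0 < ‖z‖ := by linarith
      have h3 := hball (((R / ‖z‖ : ℝ) : ℂ) * z) (by
        rw [dist_eq_norm]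
        have e : ((R / ‖z‖ : ℝ) : ℂ) * z - z = (((R - ‖z‖) / ‖z‖ : ℝ) : ℂ) * z := by
          rw [sub_div, div_self hz0.ne']; push_cast; ring
        rw [e, norm_mul, Complex.norm_real, Real.norm_eq_abs, abs_div, abs_norm,
          div_mul_cancel₀ _ hz0.ne', abs_of_pos (by linarith)]
        linarith)
      have h4 := h3.1
      rw [norm_mul, Complex.norm_real, Real.norm_of_nonneg (by positivity),
        div_mul_cancel₀ _ hz0.ne'] at h4
      linarith
    · obtain ⟨h1, h2⟩ := hz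
      have hz0 : 0 < ‖z - ((c : ℝ) : ℂ)‖ := by linarith
      have h3 := hball (((c : ℝ) : ℂ) + ((ρ / ‖z - ((c : ℝ) : ℂ)‖ : ℝ) : ℂ) *
          (z - ((c : ℝ) : ℂ))) (by
        rw [dist_eq_norm]
        have e : ((c : ℝ) : ℂ) + ((ρ / ‖z - ((c : ℝ) : ℂ)‖ : ℝ) : ℂ) * (z - ((c : ℝ) : ℂ)) - z =
            (((ρ - ‖z - ((c : ℝ) : ℂ)‖) / ‖z - ((c : ℝ) : ℂ)‖ : ℝ) : ℂ) *
              (z - ((c : ℝ) : ℂ)) := by
          rw [sub_div, div_self hz0.ne']; push_cast; ring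
        rw [e, norm_mul, Complex.norm_real, Real.norm_eq_abs, abs_div, abs_norm,
          div_mul_cancel₀ _ hz0.ne', abs_of_neg (by linarith)]
        linarith)
      have h4 := h3.2 c c.2
      rw [add_sub_cancel_left, norm_mul, Complex.norm_real, Real.norm_of_nonneg (by positivity),
        div_mul_cancel₀ _ hz0.ne'] at h4
      linarith
  have hcover : ∀ z ∈ colP P R ρ ε i, ∃ t, h z ∈ colP P R' ρ ε' t := by
    intro z hz
    have hzO := colP_sub hS hR hρσ hεσ i hz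
    have hw := H.hm hzO
    by_contra hcon
    push Not at hcon
    apply hmiss z hz
    refine ⟨h z, ?_, H.gh z hzO⟩
    obtain ⟨k1, k2⟩ := hw
    refine ⟨fun c hc => ?_, ?_⟩
    · by_contra h5
      apply hcon (some ⟨c, hc⟩)
      exact ⟨k2 c hc, not_le.1 h5⟩
    · by_contra h5
      apply hcon none
      exact ⟨by rw [sub_zero]; linarith, by rwa [sub_zero]⟩
  obtain ⟨z0, hz0⟩ := colP_nonempty (P := P) hR hρ hε hε18 i
  obtain ⟨t, ht⟩ := hcover z0 hz0
  refine ⟨t, ?_⟩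
  rw [mapsTo_iff_image_subset]
  apply IsPreconnected.subset_left_of_subset_union (colP_open R' ρ ε' t)
    (isOpen_iUnion fun s : {s : Option P // s ≠ t} => colP_open R' ρ ε' s.1)
  · rw [Set.disjoint_iUnion_right]
    intro s
    exact colP_disj hS hR' hρσ hε8 hε8 s.2.symm
  · rintro w ⟨z, hz, rfl⟩
    obtain ⟨s, hs⟩ := hcover z hz
    by_cases hst : s = t
    · left; rw [← hst]; exact hs
    · right; exact mem_iUnion.2 ⟨⟨s, hst⟩, hs⟩
  · exact ⟨h z0, ⟨z0, hz0, rfl⟩, ht⟩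
  · exact (colP_preconnected hR hρ hε18 i).image h (H.hc.mono (colP_sub hS hR hρσ hεσ i))

/-- the outer end is mapped to the outer end -/
theorem outer_endP {P : Finset ℝ} {σ : ℝ} (hS : Sep P σ) {ρ : ℝ} (hρ : 0 < ρ) (hρσ : ρ ≤ σ)
    {h g : ℂ → ℂ} (H : IsH (OmP P 1 ρ) (OmP P 4 ρ) h g)
    (hcl : ∀ c ∈ P, ∃ δ : ℝ, ρ < δ ∧ δ ≤ σ ∧ ∃ a ∈ P,
      MapsTo h (sphere (c : ℂ) δ) (closedBall (a : ℂ) σ)) {ε' : ℝ} (hε' : 0 < ε') (hε8 : ε' ≤ σ) :
    ∃ ε : ℝ, 0 < ε ∧ ε ≤ σ ∧ MapsTo h (annc 0 (1 - ε) 1) (annc 0 (4 - ε') 4) := by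
  have h8 := hS.le8
  have hσ := hS.pos
  have h11 : (1 : ℝ) ≤ 1 := le_rfl
  have h14 : (1 : ℝ) ≤ 4 := by norm_num
  obtain ⟨ε₀, hε₀, hε₀σ, hE⟩ := endmapP hS h11 h14 hρ hρσ hε' hε8 H
  have hcl' : ∀ c : P, ∃ δ : ℝ, ρ < δ ∧ δ ≤ σ ∧ ∃ a : P,
      MapsTo h (sphere ((c : ℝ) : ℂ) δ) (closedBall ((a : ℝ) : ℂ) σ) := by
    intro c
    obtain ⟨δ, h1, h2, a, haP, h3⟩ := hcl c c.2
    exact ⟨δ, h1, h2, ⟨a, haP⟩, h3⟩
  choose δ hδρ hδσ a ha using hcl'
  have hPne : Nonempty P := ⟨⟨0, hS.h0⟩⟩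
  obtain ⟨c0, hc0⟩ := Finite.exists_min δ
  set ε : ℝ := min ε₀ (δ c0 - ρ) with hεd
  have hε : 0 < ε := lt_min hε₀ (by linarith [hδρ c0])
  have hεε₀ : ε ≤ ε₀ := min_le_left _ _
  have hεσ : ε ≤ σ := hεε₀.trans hε₀σ
  have hε18 : ε ≤ 1 / 8 := hεσ.trans h8
  have hεδ : ∀ i : P, ρ + ε ≤ δ i := by
    intro i
    have h1 : ε ≤ δ c0 - ρ := min_le_right _ _
    have h2 := hc0 i
    linarith
  obtain ⟨ε₁, hε₁, hε₁σ, hD⟩ := endmapP hS h14 h11 hρ hρσ hε hεσ H.symm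
  set ε'' : ℝ := min ε₁ ε' with hε''d
  have hε'' : 0 < ε'' := lt_min hε₁ hε'
  have hε''1 : ε'' ≤ ε₁ := min_le_left _ _
  have hε''' : ε'' ≤ ε' := min_le_right _ _
  have hε''σ : ε'' ≤ σ := hε'''.trans hε8
  have hε''8 : ε'' ≤ 1 / 8 := hε''σ.trans h8
  have hEi := hE ε hε hεε₀
  have hDi := hD ε'' hε'' hε''1
  -- key fact: a point in the target collar s whose preimage is in the source collar i
  have hback : ∀ s : Option P, ∀ w ∈ colP P 4 ρ ε'' s, ∀ i : Option P, g w ∈ colP P 1 ρ ε i →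
      MapsTo h (colP P 1 ρ ε i) (colP P 4 ρ ε' s) := by
    intro s w hw i hgi
    obtain ⟨t, ht⟩ := hEi i
    have hwO : w ∈ OmP P 4 ρ := colP_sub hS h14 hρσ hε''σ s hw
    have h1 := ht hgi
    rw [H.hg w hwO] at h1
    have h2 : w ∈ colP P 4 ρ ε' s := colP_mono hε''' s hw
    by_cases hts : t = s
    · rwa [← hts]
    · exact absurd h2 (Set.disjoint_left.1 (colP_disj hS h14 hρσ hε8 hε8 hts) h1)
  -- holes are not mapped to the outer end
  have hhole : ∀ c : P, ¬ MapsTo h (colP P 1 ρ ε (some c)) (colP P 4 ρ ε' none) := by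
    intro c hcon
    -- the set W
    obtain ⟨W, hWp, hWO, hWa, hW2, a', hWa'⟩ : ∃ W : Set ℂ, IsPreconnected W ∧ W ⊆ OmP P 4 ρ ∧
        (∀ w ∈ W, w ∉ closedBall ((a c : ℝ) : ℂ) σ) ∧ colP P 4 ρ ε' none ⊆ W ∧ ∃ a' : P,
        colP P 4 ρ ε' (some a') ⊆ W := by
      generalize a c = b
      obtain ⟨a', ha'⟩ : ∃ a' : P, (a' : ℝ) ≠ (b : ℝ) := by
        by_cases hb : (b : ℝ) = 0
        · exact ⟨⟨1 / 2, hS.h1⟩, by rw [hb]; norm_num⟩
        · exact ⟨⟨0, hS.h0⟩, fun h => hb h.symm⟩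
      have hr : ∀ c' : ℝ, ρ ≤ (if c' = (b : ℝ) then σ else ρ) ∧
          (if c' = (b : ℝ) then σ else ρ) ≤ σ := by
        intro c'
        by_cases h : c' = (b : ℝ)
        · rw [if_pos h]; exact ⟨hρσ, le_rfl⟩
        · rw [if_neg h]; exact ⟨le_rfl, hρσ⟩
      refine ⟨{z : ℂ | ‖z‖ < 4 ∧ ∀ c' ∈ P, (if c' = (b : ℝ) then σ else ρ) < ‖z - (c' : ℂ)‖},
        domP_preconnected (r := fun c' => if c' = (b : ℝ) then σ else ρ) h14 hS.ge hS.le
          (fun c' _ => (hr c').2.trans h8), ?_, ?_, ?_, a', ?_⟩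
      · rintro w ⟨h1, h2⟩
        exact ⟨h1, fun c' hc' => lt_of_le_of_lt (hr c').1 (h2 c' hc')⟩
      · rintro w ⟨h1, h2⟩ hw'
        have h3 := h2 b b.2
        rw [if_pos rfl] at h3
        rw [mem_closedBall, dist_eq_norm] at hw'
        linarith
      · rintro w ⟨h1, h2⟩
        rw [sub_zero] at h1 h2
        refine ⟨h2, fun c' hc' => ?_⟩
        have h3 := far_out hS hc' (z := w) (by linarith)
        have h4 := (hr c').2
        linarith
      · rintro w ⟨h1, h2⟩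
        have h3 := tri1 (hS.ge a' a'.2) (hS.le a' a'.2) w
        refine ⟨by linarith, fun c' hc' => ?_⟩
        by_cases hcc : (a' : ℝ) = c'
        · rw [← hcc, if_neg ha']; exact h1
        · have h4 := far hS a'.2 hc' hcc (z := w) (by linarith)
          have h5 := (hr c').2
          linarith
    -- the preimage of W is inside the circle
    have hci : ∀ z ∈ colP P 1 ρ ε (some c), ‖z - ((c : ℝ) : ℂ)‖ < δ c := by
      intro z hz
      have := hz.2
      linarith [hεδ c]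
    have hout : ∀ s : Option P, s ≠ some c → ∀ z ∈ colP P 1 ρ ε s,
        δ c < ‖z - ((c : ℝ) : ℂ)‖ := by
      intro s hs z hz
      have k3 := hδσ c
      rcases s with _ | c'
      · have h1 := hz.1
        rw [sub_zero] at h1
        have := far_out hS c.2 (z := z) (by linarith)
        linarith
      · have hne : (c' : ℝ) ≠ c := fun h => hs (by rw [Subtype.ext h])
        have h1 := hz.2
        have := far hS c'.2 c.2 hne (z := z) (by linarith)
        linarith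
    have hgW : IsPreconnected (g '' W) := hWp.image g (H.gc.mono hWO)
    have hns : ∀ z ∈ g '' W, ‖z - ((c : ℝ) : ℂ)‖ ≠ δ c := by
      rintro z ⟨w, hw, rfl⟩ hz
      have h1 : g w ∈ sphere ((c : ℝ) : ℂ) (δ c) := by rw [mem_sphere, dist_eq_norm]; exact hz
      have h2 := ha c h1
      rw [H.hg w (hWO hw)] at h2
      exact hWa w hw h2
    have hin : ∀ z ∈ g '' W, ‖z - ((c : ℝ) : ℂ)‖ < δ c := by
      have c1 : Continuous fun z : ℂ => ‖z - ((c : ℝ) : ℂ)‖ := by fun_prop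
      have hsub : g '' W ⊆ {z | ‖z - ((c : ℝ) : ℂ)‖ < δ c} := by
        apply hgW.subset_left_of_subset_union (isOpen_lt c1 continuous_const)
          (isOpen_lt continuous_const c1) (v := {z | δ c < ‖z - ((c : ℝ) : ℂ)‖})
        · rw [Set.disjoint_left]
          intro z h1 h2
          have h1' : ‖z - ((c : ℝ) : ℂ)‖ < δ c := h1
          have h2' : δ c < ‖z - ((c : ℝ) : ℂ)‖ := h2
          linarith
        · intro z hz
          rcases lt_or_gt_of_ne (hns z hz) with h | h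
          · left; exact h
          · right; exact h
        · obtain ⟨z, hz⟩ := colP_nonempty (P := P) h11 hρ hε hε18 (some c)
          refine ⟨z, ⟨h z, hW2 (hcon hz), H.gh z (colP_sub hS h11 hρσ hεσ (some c) hz)⟩,
            hci z hz⟩
      intro z hz; exact hsub hz
    -- the other hole
    obtain ⟨w, hw⟩ := colP_nonempty (P := P) h14 hρ hε'' hε''8 (some a')
    obtain ⟨τ, hτ⟩ := hDi (some a')
    have hgw := hτ hw
    have hwW : w ∈ W := hWa' (colP_mono hε''' (some a') hw)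
    have hlt := hin (g w) ⟨w, hwW, rfl⟩
    have hτi : τ = some c := by
      by_contra hne
      have := hout τ hne (g w) hgw
      linarith
    rw [hτi] at hgw
    have h1 := hback (some a') w hw (some c) hgw
    obtain ⟨z, hz⟩ := colP_nonempty (P := P) h11 hρ hε hε18 (some c)
    exact Set.disjoint_left.1 (colP_disj hS h14 hρσ hε8 hε8 (Option.some_ne_none a'))
      (h1 hz) (hcon hz)
  -- conclusion
  obtain ⟨w, hw⟩ := colP_nonempty (P := P) h14 hρ hε'' hε''8 none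
  obtain ⟨τ, hτ⟩ := hDi none
  have hgw := hτ hw
  have hfin := hback none w hw τ hgw
  rcases τ with _ | c
  · exact ⟨ε, hε, hεσ, hfin⟩
  · exact absurd hfin (hhole c)

end Pool.Agent.H747ED
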