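import Mathlib
import Pool.Agent.H747ED.K0

/-!
Disks with any number of holes: exhaustion and removal of finitely many punctures (adaptation of
`Pool/Agent/H366R3/ED/Ext.lean`, by helper810).
-/

set_option autoImplicit false

open Set Filter Topology MeasureTheory Metric
open scoped ContDiff ENNReal NNReal ComplexConjugate Real

namespace Pool.Agent.H747ED

open Pool.Agent.H366R3.ED

variable {P : Finset ℝ} {σ : ℝ}

/-- exhaustion -/
lemma exhaustP (hS : Sep P σ) {f : ℂ → ℂ} (hf : ContinuousOn f (OmP P 1 0)) {C : ℝ}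
    (hK : ∀ K, IsCompact K → K ⊆ OmP P 1 0 → ∫ z in K, ‖f z‖ ^ 2 ≤ C) :
    IntegrableOn (fun z => ‖f z‖ ^ 2) (OmP P 1 0) ∧ ∫ z in OmP P 1 0, ‖f z‖ ^ 2 ≤ C := by
  have _hS := hS
  have hC : 0 ≤ C := by
    have := hK ∅ isCompact_empty (empty_subset _)
    simpa using this
  set a : ℕ → ℝ := fun n => 1 / ((n : ℝ) + 9) with ha
  have ha0 : ∀ n, 0 < a n := fun n => by positivity
  set U : ℕ → Set ℂ := fun n => {z | (∀ c ∈ P, a n < ‖z - (c : ℂ)‖) ∧ ‖z‖ < 1 - a n} with hU
  set K : ℕ → Set ℂ := fun n => {z | (∀ c ∈ P, a n ≤ ‖z - (c : ℂ)‖) ∧ ‖z‖ ≤ 1 - a n} with hKd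
  have c1 : Continuous fun w : ℂ => ‖w‖ := continuous_norm
  have hKc : ∀ n, IsCompact (K n) := by
    intro n
    apply (isCompact_closedBall (0 : ℂ) 1).of_isClosed_subset
    · have e : K n = (⋂ c ∈ P, {z : ℂ | a n ≤ ‖z - (c : ℂ)‖}) ∩ {z | ‖z‖ ≤ 1 - a n} := by
        ext z
        simp [hKd]
      rw [e]
      refine IsClosed.inter ?_ (isClosed_le c1 continuous_const)
      refine isClosed_biInter fun c _ => ?_
      have c2 : Continuous fun w : ℂ => ‖w - (c : ℂ)‖ := by fun_prop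
      exact isClosed_le continuous_const c2
    · rintro w ⟨-, h3⟩
      rw [mem_closedBall_zero_iff]; linarith [ha0 n]
  have hKO : ∀ n, K n ⊆ OmP P 1 0 := by
    rintro n w ⟨h1, h3⟩
    have := ha0 n
    exact ⟨by linarith, fun c hc => by linarith [h1 c hc]⟩
  have hUK : ∀ n, U n ⊆ K n := fun n w hw => ⟨fun c hc => (hw.1 c hc).le, hw.2.le⟩
  have hanti : Antitone a := by
    intro m n hmn
    have : (m : ℝ) ≤ n := by exact_mod_cast hmn
    simp only [ha]
    gcongr
  have hmono : Monotone U := by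
    intro m n hmn w hw
    have := hanti hmn
    exact ⟨fun c hc => lt_of_le_of_lt this (hw.1 c hc), by linarith [hw.2]⟩
  have hunion : ⋃ n, U n = OmP P 1 0 := by
    apply Subset.antisymm
    · exact iUnion_subset fun n => (hUK n).trans (hKO n)
    · intro w hw
      obtain ⟨h1, h2⟩ := hw
      have htend : Tendsto a atTop (𝓝 0) := by
        have := (tendsto_natCast_atTop_atTop (R := ℝ)).atTop_add (tendsto_const_nhds (x := (9:ℝ)))
        have h4 := this.inv_tendsto_atTop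
        refine h4.congr fun n => ?_
        simp [ha]
      have h5 : ∀ᶠ n in atTop, ∀ c ∈ P, a n < ‖w - (c : ℂ)‖ :=
        (Filter.eventually_all_finset P).2 fun c hc => htend.eventually (gt_mem_nhds (h2 c hc))
      have h6 : ∀ᶠ n in atTop, a n < 1 - ‖w‖ :=
        htend.eventually (gt_mem_nhds (by linarith))
      obtain ⟨n, hn1, hn2⟩ := (h5.and h6).exists
      exact mem_iUnion.2 ⟨n, hn1, by linarith⟩
  have hle : ∫⁻ z in OmP P 1 0, ENNReal.ofReal (‖f z‖ ^ 2) ≤ ENNReal.ofReal C := by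
    rw [← hunion, setLIntegral_iUnion_of_directed _ hmono.directed_le]
    apply iSup_le
    intro n
    have hi : IntegrableOn (fun z => ‖f z‖ ^ 2) (K n) :=
      ((hf.mono (hKO n)).norm.pow 2).integrableOn_compact (hKc n)
    calc ∫⁻ z in U n, ENNReal.ofReal (‖f z‖ ^ 2)
        ≤ ∫⁻ z in K n, ENNReal.ofReal (‖f z‖ ^ 2) := lintegral_mono_set (hUK n)
      _ = ENNReal.ofReal (∫ z in K n, ‖f z‖ ^ 2) :=
          (ofReal_integral_eq_lintegral_ofReal hi (Eventually.of_forall fun z => by positivity)).symm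
      _ ≤ ENNReal.ofReal C := ENNReal.ofReal_le_ofReal (hK _ (hKc n) (hKO n))
  have hm : AEStronglyMeasurable (fun z => ‖f z‖ ^ 2) (volume.restrict (OmP P 1 0)) :=
    (hf.norm.pow 2).aestronglyMeasurable (OmP_open P 1 0).measurableSet
  have hint : IntegrableOn (fun z => ‖f z‖ ^ 2) (OmP P 1 0) := by
    refine ⟨hm, ?_⟩
    rw [hasFiniteIntegral_iff_ofReal (Eventually.of_forall fun z => by positivity)]
    exact hle.trans_lt ENNReal.ofReal_lt_top
  refine ⟨hint, ?_⟩
  rw [← ofReal_integral_eq_lintegral_ofReal hint (Eventually.of_forall fun z => by positivity)] at hle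
  exact (ENNReal.ofReal_le_ofReal_iff hC).1 hle

lemma bdd_decP (hS : Sep P σ) {f : ℂ → ℂ} {M : ℝ} (hM : ∀ z ∈ OmP P 1 0, ‖f z‖ ≤ M) :
    DecP P f := by
  intro c hc ε hε
  have hM' : 0 < |M| + 1 := by positivity
  have hσ := hS.pos
  have h1 : ball (c : ℂ) (min (2 * σ) (ε / (|M| + 1))) ∈ 𝓝 (c : ℂ) :=
    ball_mem_nhds _ (by positivity)
  filter_upwards [self_mem_nhdsWithin, mem_nhdsWithin_of_mem_nhds h1] with z hz hzb
  rw [mem_ball, lt_min_iff, dist_eq_norm] at hzb
  have h2 := hM z (near_punctP hS hc hz hzb.1)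
  have h3 := hzb.2
  rw [lt_div_iff₀ hM'] at h3
  have h4 : ‖f z‖ ≤ |M| + 1 := by linarith [le_abs_self M]
  nlinarith [norm_nonneg (z - (c : ℂ)), norm_nonneg (f z)]

lemma L2_decP (hS : Sep P σ) {f : ℂ → ℂ} (hf : DifferentiableOn ℂ f (OmP P 1 0))
    (hi : IntegrableOn (fun z => ‖f z‖ ^ 2) (OmP P 1 0)) : DecP P f := by
  intro c₀ hc₀ ε hε
  obtain ⟨c, hcc⟩ : ∃ c : ℂ, c = (c₀ : ℂ) := ⟨_, rfl⟩
  rw [← hcc]
  have hσ := hS.pos
  have hπ := Real.pi_pos
  have hfin : ∫⁻ z, ENNReal.ofReal (‖f z‖ ^ 2) ∂(volume.restrict (OmP P 1 0)) ≠ ⊤ := by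
    have := hi.2
    rw [hasFiniteIntegral_iff_ofReal (Eventually.of_forall fun z => by positivity)] at this
    exact this.ne
  set η : ℝ := π * ε ^ 2 / 4 with hη
  have hηp : 0 < η := by positivity
  obtain ⟨δ, hδ, hδS⟩ := exists_pos_setLIntegral_lt_of_measure_lt hfin
    (ENNReal.ofReal_pos.2 hηp).ne'
  -- small balls have small measure
  obtain ⟨r0, hr0, hr0δ⟩ : ∃ r0 : ℝ, 0 < r0 ∧ ∀ w : ℂ, ∀ r, r ≤ r0 → volume (ball w r) < δ := by
    have h1 : Tendsto (fun r : ℝ => volume (ball (0 : ℂ) r)) (𝓝[>] 0) (𝓝 0) := by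
      have h2 : ∀ r : ℝ, volume (ball (0 : ℂ) r) = ENNReal.ofReal r ^ 2 * NNReal.pi := fun r =>
        Complex.volume_ball 0 r
      simp_rw [h2]
      have h3 : Tendsto (fun r : ℝ => ENNReal.ofReal r ^ 2 * (NNReal.pi : ℝ≥0∞)) (𝓝 0)
          (𝓝 (ENNReal.ofReal 0 ^ 2 * NNReal.pi)) := by
        apply ENNReal.Tendsto.mul_const
        · exact (ENNReal.continuous_pow 2).continuousAt.tendsto.comp
            (ENNReal.continuous_ofReal.tendsto 0)
        · right; exact ENNReal.coe_ne_top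
      simp only [ENNReal.ofReal_zero, ne_eq, OfNat.ofNat_ne_zero, not_false_eq_true, zero_pow,
        zero_mul] at h3
      exact h3.mono_left nhdsWithin_le_nhds
    have h4 := (h1.eventually (gt_mem_nhds hδ)).and self_mem_nhdsWithin
    obtain ⟨r0, h5, h6⟩ := h4.exists
    refine ⟨r0, h6, fun w r hr => ?_⟩
    calc volume (ball w r) ≤ volume (ball w r0) := measure_mono (ball_subset_ball hr)
      _ = volume (ball (0 : ℂ) r0) := by rw [Complex.volume_ball, Complex.volume_ball]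
      _ < δ := h5
  have h1 : ball c (min σ r0) ∈ 𝓝 c := ball_mem_nhds c (by positivity)
  filter_upwards [self_mem_nhdsWithin, mem_nhdsWithin_of_mem_nhds h1] with z hz hzb
  rw [mem_ball, lt_min_iff, dist_eq_norm] at hzb
  have hz0 : 0 < ‖z - c‖ := norm_pos_iff.2 (sub_ne_zero.2 hz)
  set r : ℝ := ‖z - c‖ / 2 with hr
  have hrp : 0 < r := by positivity
  have hsub : ball z r ⊆ OmP P 1 0 := by
    intro w hw
    rw [mem_ball, dist_eq_norm] at hw
    have t1 := norm_sub_norm_le (z - c) (z - w)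
    have t2 := norm_add_le (w - z) (z - c)
    have e1 : z - c - (z - w) = w - c := by ring
    have e2 : w - z + (z - c) = w - c := by ring
    rw [e1, norm_sub_rev z w] at t1
    rw [e2] at t2
    rw [hcc] at *
    apply near_punctP hS hc₀
    · intro h; rw [h, sub_self, norm_zero] at t1; rw [h] at hw; linarith
    · linarith [hzb.1]
  have h2 := holo_sq_le hrp (hf.mono hsub) (hi.mono_set hsub)
  have h3 : ∫ w in ball z r, ‖f w‖ ^ 2 < η := by
    have h4 : ∫⁻ w in ball z r, ENNReal.ofReal (‖f w‖ ^ 2) ∂(volume.restrict (OmP P 1 0)) <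
        ENNReal.ofReal η := by
      apply hδS
      calc (volume.restrict (OmP P 1 0)) (ball z r) ≤ volume (ball z r) := Measure.restrict_apply_le _ _
        _ < δ := hr0δ z r (by linarith [hzb.2])
    rw [Measure.restrict_restrict_of_subset hsub, ← ofReal_integral_eq_lintegral_ofReal
      (hi.mono_set hsub) (Eventually.of_forall fun z => by positivity)] at h4
    exact (ENNReal.ofReal_lt_ofReal_iff hηp).1 h4
  have h4 : (‖f z‖ * ‖z - c‖) ^ 2 < ε ^ 2 := by
    have e : (‖f z‖ * ‖z - c‖) ^ 2 = 4 * (r ^ 2 * ‖f z‖ ^ 2) := by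
      rw [hr]; ring
    rw [e]
    have h5 : π * (r ^ 2 * ‖f z‖ ^ 2) < π * (ε ^ 2 / 4) := by
      calc π * (r ^ 2 * ‖f z‖ ^ 2) = π * r ^ 2 * ‖f z‖ ^ 2 := by ring
        _ ≤ _ := h2
        _ < η := h3
        _ = _ := by rw [hη]; ring
    have h6 := lt_of_mul_lt_mul_left h5 hπ.le
    linarith
  exact (lt_of_pow_lt_pow_left₀ 2 hε.le h4).le

/-- removal of the punctures -/
lemma extP (hS : Sep P σ) {f : ℂ → ℂ} (hf : DifferentiableOn ℂ f (OmP P 1 0)) (hd : DecP P f) :
    ∃ f' : ℂ → ℂ, DifferentiableOn ℂ f' (ball 0 1) ∧ EqOn f' f (OmP P 1 0) := by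
  have key : ∀ (g : ℂ → ℂ) (s : Set ℂ) (c : ℂ), s ∈ 𝓝 c → DifferentiableOn ℂ g (s \ {c}) →
      (∀ ε > 0, ∀ᶠ z in 𝓝[≠] c, ‖g z‖ * ‖z - c‖ ≤ ε) →
      DifferentiableOn ℂ (Function.update g c (limUnder (𝓝[≠] c) g)) s := by
    intro g s c hs hg hdec
    apply Complex.differentiableOn_update_limUnder_of_isLittleO hs hg
    rw [Asymptotics.isLittleO_iff]
    intro ε hε
    have h1 := hdec (ε / 2) (by positivity)
    have h2 : ball c (ε / (2 * (‖g c‖ + 1))) ∈ 𝓝 c := ball_mem_nhds c (by positivity)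
    filter_upwards [h1, self_mem_nhdsWithin, mem_nhdsWithin_of_mem_nhds h2] with z k1 k2 k3
    have hz0 : 0 < ‖z - c‖ := norm_pos_iff.2 (sub_ne_zero.2 k2)
    rw [mem_ball, dist_eq_norm, lt_div_iff₀ (by positivity)] at k3
    rw [norm_inv, ← div_eq_mul_inv, le_div_iff₀ hz0]
    have k4 := norm_sub_le (g z) (g c)
    have k5 : ‖g z - g c‖ * ‖z - c‖ ≤ (‖g z‖ + ‖g c‖) * ‖z - c‖ := by gcongr
    nlinarith [norm_nonneg (g c)]
  have step : ∀ T : Finset ℝ, T ⊆ P → ∃ g : ℂ → ℂ,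
      DifferentiableOn ℂ g (ball 0 1 \ {z | ∃ c ∈ P, c ∉ T ∧ z = (c : ℂ)}) ∧
      ∀ z, (∀ c ∈ T, z ≠ (c : ℂ)) → g z = f z := by
    intro T
    induction T using Finset.induction_on with
    | empty =>
      intro _
      refine ⟨f, hf.mono ?_, fun z _ => rfl⟩
      rintro z ⟨h1, h2⟩
      rw [mem_ball_zero_iff] at h1
      refine ⟨h1, fun c hc => ?_⟩
      rw [norm_pos_iff, sub_ne_zero]
      intro h
      exact h2 ⟨c, hc, Finset.notMem_empty c, h⟩
    | insert a T haT ih =>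
      intro hTP
      have haP : a ∈ P := hTP (Finset.mem_insert_self a T)
      obtain ⟨g, hg1, hg2⟩ := ih ((Finset.subset_insert a T).trans hTP)
      set s : Set ℂ := ball 0 1 \ {z | ∃ c ∈ P, c ∉ insert a T ∧ z = (c : ℂ)} with hs
      have hfin : ({z | ∃ c ∈ P, c ∉ insert a T ∧ z = (c : ℂ)} : Set ℂ).Finite := by
        refine (P.finite_toSet.image fun c : ℝ => (c : ℂ)).subset ?_
        rintro z ⟨c, hc, -, rfl⟩
        exact ⟨c, hc, rfl⟩
      have hso : IsOpen s := isOpen_ball.sdiff hfin.isClosed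
      have has : (a : ℂ) ∈ s := by
        refine ⟨?_, ?_⟩
        · rw [mem_ball_zero_iff]
          linarith [norm_cen hS haP]
        · rintro ⟨c, -, hc, h⟩
          rw [Complex.ofReal_inj] at h
          exact hc (h ▸ Finset.mem_insert_self a T)
      refine ⟨Function.update g (a : ℂ) (limUnder (𝓝[≠] (a : ℂ)) g), ?_, ?_⟩
      · apply key g s (a : ℂ) (hso.mem_nhds has)
        · apply hg1.mono
          rintro z ⟨⟨h1, h2⟩, h3⟩
          refine ⟨h1, ?_⟩
          rintro ⟨c, hc, hcT, h⟩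
          by_cases hca : c = a
          · exact h3 (by rw [h, hca]; rfl)
          · exact h2 ⟨c, hc, fun hm => (Finset.mem_insert.1 hm).elim hca hcT, h⟩
        · intro ε hε
          have h4 : ∀ᶠ z in 𝓝 (a : ℂ), ∀ c ∈ T, z ≠ (c : ℂ) :=
            (Filter.eventually_all_finset T).2 fun c hc => isOpen_ne.mem_nhds (by
              intro h
              rw [Complex.ofReal_inj] at h
              exact haT (h ▸ hc))
          filter_upwards [hd a haP ε hε, mem_nhdsWithin_of_mem_nhds h4] with z h1 h2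
          rwa [hg2 z h2]
      · intro z hz
        rw [Function.update_of_ne (hz a (Finset.mem_insert_self a T))]
        exact hg2 z fun c hc => hz c (Finset.mem_insert_of_mem hc)
  obtain ⟨g, hg1, hg2⟩ := step P (Finset.Subset.refl P)
  refine ⟨g, hg1.mono ?_, fun z hz => hg2 z fun c hc h => ?_⟩
  · intro z hz
    exact ⟨hz, fun ⟨c, hc, hc', _⟩ => hc' hc⟩
  · have h1 := hz.2 c hc
    rw [h, sub_self, norm_zero] at h1
    exact lt_irrefl _ h1

lemma OmP_ae : OmP P 1 0 =ᵐ[volume] ball (0 : ℂ) 1 := by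
  have e : OmP P 1 0 = ball (0 : ℂ) 1 \ ((fun c : ℝ => (c : ℂ)) '' (P : Set ℝ)) := by
    ext z
    constructor
    · rintro ⟨h1, h2⟩
      refine ⟨by rwa [mem_ball_zero_iff], ?_⟩
      rintro ⟨c, hc, rfl⟩
      have h3 := h2 c hc
      simp at h3
    · rintro ⟨h1, h2⟩
      refine ⟨by rwa [mem_ball_zero_iff] at h1, fun c hc => ?_⟩
      rw [norm_pos_iff, sub_ne_zero]
      intro h
      exact h2 ⟨c, hc, h.symm⟩
  rw [e]
  apply sdiff_null_ae_eq_self
  exact (P.finite_toSet.image _).measure_zero _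

end Pool.Agent.H747ED
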