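import Mathlib
import Pool.Agent.H747ED.K0
import Pool.Agent.H747ED.K1
import Pool.Agent.H747ED.K2
import Pool.Agent.H366R3.ED.NoFill
import Pool.Agent.H366R3.ED.Radial
import Pool.Agent.H366R3.ED.Coef

/-!
# Project EDK (helper747): the limit map gives a contradiction

Adaptation of `Pool.Agent.H366R3.ED.Final1` to finitely many centers.
-/

set_option autoImplicit false

open Set Filter Topology MeasureTheory Metric
open scoped ContDiff ENNReal NNReal ComplexConjugate Real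

namespace Pool.Agent.H747ED

open Pool.Agent.H366R3 Pool.Agent.H366R3.ED

variable {P : Finset ℝ} {σ : ℝ} {l : Ultrafilter ℕ} {ρ : ℕ → ℝ} {h g : ℕ → ℂ → ℂ} {k : ℂ → ℂ}

lemma DataP.bdd (D : DataP P σ l ρ h g k) : ∀ z ∈ OmP P 1 0, ‖k z‖ ≤ 4 := by
  intro z hz
  have h1 := (D.cc.pt hz).norm
  obtain ⟨k1, k2⟩ := hz
  apply le_of_tendsto h1
  have hev : ∀ᶠ n in (l : Filter ℕ), ∀ c ∈ P, ρ n < ‖z - (c : ℂ)‖ := by
    rw [Finset.eventually_all]
    intro c hc
    exact D.ρt.eventually (gt_mem_nhds (k2 c hc))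
  filter_upwards [hev] with n h2
  exact ((D.H n).hm ⟨k1, h2⟩).1.le

lemma cenP_mem (hS : Sep P σ) {c : ℝ} (hc : c ∈ P) : (c : ℂ) ∈ ball (0 : ℂ) 1 := by
  rw [mem_ball_zero_iff, Complex.norm_real, Real.norm_of_nonneg (hS.ge c hc)]
  linarith [hS.le c hc]

/-- small circles about the centers -/
lemma sph_sub (hS : Sep P σ) {c : ℝ} (hc : c ∈ P) {R ρ δ : ℝ} (hR : 1 ≤ R) (h1 : ρ < δ)
    (h2 : δ ≤ σ) (_h3 : ρ ≤ σ) : sphere (c : ℂ) δ ⊆ OmP P R ρ := by
  intro z hz
  rw [mem_sphere, dist_eq_norm] at hz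
  have h8 := hS.le8
  have hp := hS.pos
  refine ⟨?_, ?_⟩
  · have := tri1 (hS.ge c hc) (hS.le c hc) z
    linarith
  · intro c' hc'
    by_cases hcc : c' = c
    · rw [hcc, hz]; exact h1
    · have e1 := hS.sep c' hc' c hc hcc
      have e2 := tri2 c' c z
      linarith

/-- the extension of the limit -/
lemma DataP.ext (D : DataP P σ l ρ h g k) : ∃ K : ℂ → ℂ, DifferentiableOn ℂ K (ball 0 1) ∧
    EqOn K k (OmP P 1 0) ∧ ∀ z ∈ ball (0 : ℂ) 1, ‖K z‖ ≤ 4 := by
  have hS := D.S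
  obtain ⟨K, hK, hKe⟩ := extP hS D.hol (bdd_decP hS D.bdd)
  refine ⟨K, hK, hKe, ?_⟩
  intro z hz
  by_cases hzO : z ∈ OmP P 1 0
  · rw [hKe hzO]; exact D.bdd z hzO
  · have hc : ∃ c ∈ P, z = (c : ℂ) := by
      by_contra hcon
      push Not at hcon
      apply hzO
      rw [mem_ball_zero_iff] at hz
      exact ⟨hz, fun c hc => norm_pos_iff.2 (sub_ne_zero.2 (hcon c hc))⟩
    obtain ⟨c, hcP, hzc⟩ := hc
    have h1 : Tendsto (fun w => ‖K w‖) (𝓝[≠] z) (𝓝 ‖K z‖) :=
      ((hK.differentiableAt (isOpen_ball.mem_nhds hz)).continuousAt.norm.tendsto).mono_left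
        nhdsWithin_le_nhds
    apply le_of_tendsto h1
    have h2 : ball z σ ∈ 𝓝 z := ball_mem_nhds z hS.pos
    filter_upwards [self_mem_nhdsWithin, mem_nhdsWithin_of_mem_nhds h2] with w hw hwb
    rw [mem_ball, dist_eq_norm] at hwb
    have h3 : w ∈ OmP P 1 0 := by
      have hw0 : 0 < ‖w - z‖ := norm_pos_iff.2 (sub_ne_zero.2 hw)
      have hw1 : w ∈ sphere (c : ℂ) ‖w - z‖ := by rw [mem_sphere, dist_eq_norm, ← hzc]
      exact sph_sub hS hcP le_rfl hw0 hwb.le hS.pos.le hw1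
    rw [hKe h3]; exact D.bdd w h3

/-- values of the limit at the punctures -/
lemma DataP.val (D : DataP P σ l ρ h g k) {K : ℂ → ℂ} (hK : DifferentiableOn ℂ K (ball 0 1))
    (hKe : EqOn K k (OmP P 1 0)) {c : ℝ} (hcP : c ∈ P) : ∃ a ∈ P, K (c : ℂ) = (a : ℂ) := by
  by_contra hcon
  push Not at hcon
  have hS := D.S
  have h8 := hS.le8
  set b := K (c : ℂ) with hb
  have hcb : (c : ℂ) ∈ ball (0 : ℂ) 1 := cenP_mem hS hcP
  obtain ⟨η, hηp, hη⟩ : ∃ η : ℝ, 0 < η ∧ ∀ a ∈ P, 2 * η ≤ ‖b - (a : ℂ)‖ := by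
    have hne : P.Nonempty := ⟨c, hcP⟩
    obtain ⟨a0, ha0, hmin⟩ := P.exists_min_image (fun a => ‖b - (a : ℂ)‖) hne
    have hpos : 0 < ‖b - (a0 : ℂ)‖ := norm_pos_iff.2 (sub_ne_zero.2 (hcon a0 ha0))
    exact ⟨‖b - (a0 : ℂ)‖ / 2, by positivity, fun a ha => by have := hmin a ha; linarith⟩
  have hKc : ContinuousAt K (c : ℂ) :=
    (hK.differentiableAt (isOpen_ball.mem_nhds hcb)).continuousAt
  obtain ⟨δ, hδ, hδK⟩ := Metric.continuousAt_iff.1 hKc (η / 2) (by positivity)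
  have hσp := hS.pos
  set δ' : ℝ := min (δ / 2) (σ / 2) with hδ'
  have hδ'p : 0 < δ' := by positivity
  have hδ'1 : δ' ≤ σ / 2 := min_le_right _ _
  have hδ'2 : δ' < δ := lt_of_le_of_lt (min_le_left _ _) (by linarith)
  have hSp : sphere (c : ℂ) δ' ⊆ OmP P 1 0 :=
    sph_sub hS hcP le_rfl hδ'p (by linarith) hσp.le
  have hu := D.cc.unif (OmP_open P 1 0) D.hol.continuousOn (isCompact_sphere (c : ℂ) δ') hSp
    (ε := η / 2) (by positivity)
  obtain ⟨n, hn1, hn2, hn3⟩ := (hu.and ((D.ρt.eventually (gt_mem_nhds hδ'p)).and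
    (D.ρt.eventually (gt_mem_nhds hηp)))).exists
  have HH := D.H n
  refine no_fill (Ω := OmP P 1 (ρ n)) (Ω' := OmP P 4 (ρ n)) (V := ball b η ∩ ball 0 4) (c := (c : ℂ))
    hδ'p ?_ HH.hc HH.gc HH.gh HH.gm ?_ ((convex_ball b η).inter (convex_ball 0 4)) ?_ ?_
  · rintro ⟨-, h2⟩
    have h3 := h2 c hcP
    rw [sub_self, norm_zero] at h3
    linarith [D.ρ0 n]
  · exact sph_sub hS hcP le_rfl hn2 (by linarith) (D.ρ8 n)
  · rintro w ⟨hw1, hw2⟩
    rw [mem_ball, dist_eq_norm] at hw1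
    rw [mem_ball_zero_iff] at hw2
    refine ⟨hw2, ?_⟩
    intro a ha
    have := norm_sub_norm_le (b - (a : ℂ)) (w - (a : ℂ))
    have e : b - (a : ℂ) - (w - (a : ℂ)) = b - w := by ring
    rw [e, norm_sub_rev b w] at this
    have := hη a ha
    linarith
  · intro z hz
    have hzO := hSp hz
    have hz2 : dist z (c : ℂ) < δ := by rw [mem_sphere] at hz; rw [hz]; exact hδ'2
    have h1 := hn1 z hz
    have h2 := hδK hz2
    rw [← hKe hzO] at h1
    have h3 := dist_triangle (h n z) (K z) b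
    refine ⟨?_, ?_⟩
    · rw [mem_ball]; rw [← hb] at h2; linarith
    · rw [mem_ball_zero_iff]
      have hzn : z ∈ OmP P 1 (ρ n) :=
        sph_sub hS hcP le_rfl hn2 (by linarith) (D.ρ8 n) hz
      exact (HH.hm hzn).1

/-- the outer end -/
lemma DataP.outer (D : DataP P σ l ρ h g k) {K : ℂ → ℂ} (hK : DifferentiableOn ℂ K (ball 0 1))
    (hKe : EqOn K k (OmP P 1 0)) : ∀ᶠ n in (l : Filter ℕ), ∀ ε' : ℝ, 0 < ε' → ε' ≤ σ →
      ∃ ε : ℝ, 0 < ε ∧ ε ≤ σ ∧ MapsTo (h n) (annc 0 (1 - ε) 1) (annc 0 (4 - ε') 4) := by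
  have hS := D.S
  have hσp := hS.pos
  have key : ∀ c ∈ P, ∀ᶠ n in (l : Filter ℕ), ∃ δ : ℝ, ρ n < δ ∧ δ ≤ σ ∧ ∃ a ∈ P,
      MapsTo (h n) (sphere (c : ℂ) δ) (closedBall (a : ℂ) σ) := by
    intro c hcP
    have hcb : (c : ℂ) ∈ ball (0 : ℂ) 1 := cenP_mem hS hcP
    obtain ⟨a, haP, ha⟩ := D.val hK hKe hcP
    have hKc : ContinuousAt K (c : ℂ) :=
      (hK.differentiableAt (isOpen_ball.mem_nhds hcb)).continuousAt
    obtain ⟨δ, hδ, hδK⟩ := Metric.continuousAt_iff.1 hKc (σ / 2) (by positivity)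
    set δ' : ℝ := min (δ / 2) (σ / 2) with hδ'
    have hδ'p : 0 < δ' := by positivity
    have hδ'1 : δ' ≤ σ / 2 := min_le_right _ _
    have hδ'2 : δ' < δ := lt_of_le_of_lt (min_le_left _ _) (by linarith)
    have hSp : sphere (c : ℂ) δ' ⊆ OmP P 1 0 :=
      sph_sub hS hcP le_rfl hδ'p (by linarith) hσp.le
    have hu := D.cc.unif (OmP_open P 1 0) D.hol.continuousOn (isCompact_sphere (c : ℂ) δ') hSp
      (ε := σ / 2) (by positivity)
    filter_upwards [hu, D.ρt.eventually (gt_mem_nhds hδ'p)] with n hn1 hn2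
    refine ⟨δ', hn2, by linarith, a, haP, ?_⟩
    intro z hz
    have hzO := hSp hz
    have hz2 : dist z (c : ℂ) < δ := by rw [mem_sphere] at hz; rw [hz]; exact hδ'2
    have h1 := hn1 z hz
    have h2 := hδK hz2
    rw [← hKe hzO] at h1
    rw [ha] at h2
    have h3 := dist_triangle (h n z) (K z) (a : ℂ)
    rw [mem_closedBall]; linarith
  have hall : ∀ᶠ n in (l : Filter ℕ), ∀ c ∈ P, ∃ δ : ℝ, ρ n < δ ∧ δ ≤ σ ∧ ∃ a ∈ P,
      MapsTo (h n) (sphere (c : ℂ) δ) (closedBall (a : ℂ) σ) := by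
    rw [Finset.eventually_all]
    exact key
  filter_upwards [hall] with n hn ε' hε' hε8
  exact outer_endP hS (D.ρ0 n) (D.ρ8 n) (D.H n) hn hε' hε8

lemma ann_sub_OmP (hS : Sep P σ) {ρ : ℝ} (hρ : ρ ≤ σ) : ann (3 / 4) 1 ⊆ OmP P 1 ρ := by
  rintro z ⟨h1, h2⟩
  refine ⟨h2, fun c hc => ?_⟩
  have := tri1 (hS.ge c hc) (hS.le c hc) z
  have := hS.le8
  linarith

/-- lower bound of the averages -/
lemma DataP.avg_lower (D : DataP P σ l ρ h g k) {n : ℕ}
    (ho : ∀ ε' : ℝ, 0 < ε' → ε' ≤ σ →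
      ∃ ε : ℝ, 0 < ε ∧ ε ≤ σ ∧ MapsTo (h n) (annc 0 (1 - ε) 1) (annc 0 (4 - ε') 4))
    {r lam : ℝ} (hr : 3 / 4 < r) (hr1 : r < 1) (hlam : 0 < lam) :
    4 - (lam * (1 - r) + 1600 * π / lam) ≤ Real.circleAverage (fun z => ‖h n z‖) 0 r := by
  have hS := D.S
  have hσp := hS.pos
  have hsub := ann_sub_OmP hS (D.ρ8 n)
  have hC1 : ContDiffOn ℝ 1 (h n) (ann (3 / 4) 1) := (D.C1 n).mono hsub
  have hi : IntegrableOn (fun z => ‖fderiv ℝ (h n) z‖ ^ 2) (ann (3 / 4) 1) :=
    (D.mem n).mono_set hsub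
  have hE : ∫ z in ann (3 / 4) 1, ‖fderiv ℝ (h n) z‖ ^ 2 ≤ 1600 * π :=
    (setIntegral_mono_set (D.mem n) (Eventually.of_forall fun z => by positivity)
      hsub.eventuallyLE).trans (D.en n)
  apply le_of_forall_pos_le_add
  intro ε' hε'
  obtain ⟨ε, hε, hε8, hm⟩ := ho (min ε' σ) (by positivity) (min_le_right _ _)
  have h8 := hS.le8
  set s : ℝ := max ((r + 1) / 2) (1 - ε / 2) with hs
  have hs1 : s < 1 := max_lt (by linarith) (by linarith)
  have hrs : r < s := lt_of_lt_of_le (by linarith) (le_max_left _ _)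
  have hsε : 1 - ε < s := lt_of_lt_of_le (by linarith) (le_max_right _ _)
  have hs0 : 0 < s := by linarith
  have h1 := radial hC1 hi hE hr hrs hs1 hlam
  have h2 : 4 - ε' ≤ Real.circleAverage (fun z => ‖h n z‖) 0 s := by
    have hsph : sphere (0 : ℂ) |s| ⊆ ann (3 / 4) 1 := by
      intro z hz
      rw [mem_sphere_zero_iff_norm, abs_of_pos hs0] at hz
      exact ⟨by rw [hz]; linarith, by rw [hz]; exact hs1⟩
    have hci : CircleIntegrable (fun z => ‖h n z‖) 0 s :=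
      ((hC1.continuousOn.norm).mono hsph).circleIntegrable'
    have h3 := Real.circleAverage_mono (f₁ := fun _ => 4 - ε') (circleIntegrable_const _ _ _) hci (by
      intro z hz
      rw [mem_sphere_zero_iff_norm, abs_of_pos hs0] at hz
      have h4 : z ∈ annc 0 (1 - ε) 1 := ⟨by rw [sub_zero, hz]; exact hsε, by rw [sub_zero, hz]; exact hs1⟩
      have h5 := hm h4
      have h6 := h5.1
      rw [sub_zero] at h6
      have h7 : min ε' σ ≤ ε' := min_le_left _ _
      linarith)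
    rwa [Real.circleAverage_const] at h3
  linarith

lemma norm_div4 (hS : Sep P σ) {a : ℝ} (ha : a ∈ P) : ‖(a : ℂ) / 4‖ ≤ 1 / 8 := by
  rw [norm_div, Complex.norm_real, Real.norm_of_nonneg (hS.ge a ha)]
  have : ‖(4 : ℂ)‖ = 4 := by norm_num
  rw [this]
  linarith [hS.le a ha]

/-- no such data exist -/
theorem DataP.false (D : DataP P σ l ρ h g k) : False := by
  have hS := D.S
  obtain ⟨K, hK, hKe, hKb⟩ := D.ext
  have hπ := Real.pi_pos
  set q : ℂ → ℂ := fun z => K z / 4 with hq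
  have hqd : DifferentiableOn ℂ q (ball 0 1) := hK.div_const 4
  have hdq : ∀ z ∈ ball (0 : ℂ) 1, deriv q z = deriv K z / 4 := by
    intro z hz
    rw [hq]
    simp only [deriv_div_const]
  have hder : EqOn (deriv K) (deriv k) (OmP P 1 0) := by
    intro z hz
    apply Filter.EventuallyEq.deriv_eq
    filter_upwards [(OmP_open P 1 0).mem_nhds hz] with w hw
    exact hKe hw
  have hdc : ContinuousOn (deriv k) (OmP P 1 0) := (D.hol.deriv (OmP_open P 1 0)).continuousOn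
  obtain ⟨hi, hA⟩ := exhaustP hS hdc D.area
  have hiK : IntegrableOn (fun z => ‖deriv K z‖ ^ 2) (ball (0 : ℂ) 1) := by
    rw [← integrableOn_congr_set_ae (OmP_ae (P := P))]
    refine hi.congr_fun (fun z hz => ?_) (OmP_open P 1 0).measurableSet
    rw [hder hz]
  have hAK : ∫ z in ball (0 : ℂ) 1, ‖deriv K z‖ ^ 2 ≤ 16 * π := by
    rw [← setIntegral_congr_set (OmP_ae (P := P))]
    refine (le_of_eq ?_).trans hA
    apply setIntegral_congr_fun (OmP_open P 1 0).measurableSet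
    intro z hz
    show ‖deriv K z‖ ^ 2 = ‖deriv k z‖ ^ 2
    rw [hder hz]
  have hdKc : ContinuousOn (deriv K) (ball 0 1) := (hK.deriv isOpen_ball).continuousOn
  have hqq : ∀ z ∈ ball (0 : ℂ) 1, ‖deriv q z‖ ^ 2 = (1 / 16) * ‖deriv K z‖ ^ 2 := by
    intro z hz
    rw [hdq z hz, norm_div, div_pow]
    norm_num
    ring
  apply no_such hqd
  · obtain ⟨a, haP, ha⟩ := D.val hK hKe hS.h0
    rw [hq]; simp only
    rw [Complex.ofReal_zero] at ha
    rw [ha]
    exact norm_div4 hS haP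
  · obtain ⟨a, haP, ha⟩ := D.val hK hKe hS.h1
    rw [hq]; simp only
    have e : (((1 / 2 : ℝ)) : ℂ) = 1 / 2 := by push_cast; rfl
    rw [e] at ha
    rw [ha]
    exact norm_div4 hS haP
  · rw [memLp_two_iff_integrable_sq_norm
      ((hqd.deriv isOpen_ball).continuousOn.aestronglyMeasurable measurableSet_ball)]
    refine IntegrableOn.congr_fun (hiK.const_mul (1 / 16)) (fun z hz => ?_) measurableSet_ball
    exact (hqq z hz).symm
  · rw [setIntegral_congr_fun measurableSet_ball hqq, integral_const_mul]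
    linarith
  · intro ε hε
    set lam : ℝ := 1600 * π / ε with hlam
    have hlamp : 0 < lam := by positivity
    set r : ℝ := max (7 / 8) (1 - ε / (lam + ε)) with hr
    have hεl : 0 < ε / (lam + ε) := by positivity
    have hr1 : r < 1 := max_lt (by norm_num) (by linarith)
    have hr34 : 3 / 4 < r := lt_of_lt_of_le (by norm_num) (le_max_left _ _)
    have hr0 : 0 < r := by linarith
    refine ⟨r, hr0, hr1, ?_⟩
    have hlr : lam * (1 - r) ≤ ε := by
      have h1 : 1 - r ≤ ε / (lam + ε) := by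
        have := le_max_right (7 / 8) (1 - ε / (lam + ε))
        linarith
      have h2 : lam * (1 - r) ≤ lam * (ε / (lam + ε)) := by gcongr
      have h3 : lam * (ε / (lam + ε)) ≤ ε := by
        rw [← mul_div_assoc, div_le_iff₀ (by positivity)]
        nlinarith
      linarith
    have hll : 1600 * π / lam = ε := by rw [hlam]; field_simp
    have hsphO : sphere (0 : ℂ) |r| ⊆ OmP P 1 0 := by
      intro z hz
      rw [mem_sphere_zero_iff_norm, abs_of_pos hr0] at hz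
      exact ann_sub_OmP hS hS.pos.le ⟨by rw [hz]; exact hr34, by rw [hz]; exact hr1⟩
    -- pass to the limit
    have hlow : 4 - 2 * ε ≤ Real.circleAverage (fun z => ‖k z‖) 0 r := by
      have hcc : CC l (OmP P 1 0) (fun n z => ((‖h n z‖ : ℝ) : ℂ)) (fun z => ((‖k z‖ : ℝ) : ℂ)) :=
        D.cc.comp (φ := fun w => ((‖w‖ : ℝ) : ℂ)) (Complex.continuous_ofReal.comp continuous_norm)
      have hkc : ContinuousOn (fun z => ((‖k z‖ : ℝ) : ℂ)) (OmP P 1 0) :=
        Complex.continuous_ofReal.comp_continuousOn D.hol.continuousOn.norm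
      have hsphn : ∀ n, sphere (0 : ℂ) |r| ⊆ OmP P 1 (ρ n) := by
        intro n z hz
        rw [mem_sphere_zero_iff_norm, abs_of_pos hr0] at hz
        exact ann_sub_OmP hS (D.ρ8 n) ⟨by rw [hz]; exact hr34, by rw [hz]; exact hr1⟩
      have h1 := hcc.avg (OmP_open P 1 0) hkc hsphO (Eventually.of_forall fun n =>
        Complex.continuous_ofReal.comp_continuousOn
          (((D.C1 n).continuousOn.mono (hsphn n)).norm))
      have h2 : ∀ f : ℂ → ℝ, Real.circleAverage (fun z => ((f z : ℝ) : ℂ)) 0 r =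
          ((Real.circleAverage f 0 r : ℝ) : ℂ) := by
        intro f
        rw [Real.circleAverage_def, Real.circleAverage_def, intervalIntegral.integral_ofReal]
        simp
      simp_rw [h2] at h1
      have h3 := (Complex.continuous_re.tendsto _).comp h1
      simp only [Function.comp_def, Complex.ofReal_re] at h3
      apply ge_of_tendsto h3
      filter_upwards [D.outer hK hKe] with n hn
      have h4 := D.avg_lower hn hr34 hr1 hlamp
      rw [hll] at h4
      linarith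
    have hsphb : sphere (0 : ℂ) |r| ⊆ ball 0 1 := by
      intro z hz
      rw [mem_sphere_zero_iff_norm, abs_of_pos hr0] at hz
      rw [mem_ball_zero_iff, hz]; exact hr1
    have hKk : Real.circleAverage (fun z => ‖K z‖) 0 r = Real.circleAverage (fun z => ‖k z‖) 0 r := by
      apply Real.circleAverage_congr_sphere
      intro z hz
      show ‖K z‖ = ‖k z‖
      rw [hKe (hsphO hz)]
    have hci1 : CircleIntegrable (fun z => ‖K z‖) 0 r :=
      ((hK.continuousOn.mono hsphb).norm).circleIntegrable'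
    have hci2 : CircleIntegrable (fun z => ‖q z‖ ^ 2) 0 r :=
      (((hqd.continuousOn.mono hsphb).norm).pow 2).circleIntegrable'
    have hci3 : CircleIntegrable (fun z => (1 / 2 : ℝ) • ‖K z‖) 0 r := hci1.const_smul
    have h5 := Real.circleAverage_mono (f₁ := fun z => (1 / 2 : ℝ) • ‖K z‖ - 1)
      (hci3.sub (circleIntegrable_const (1 : ℝ) _ _)) hci2 (by
        intro z _
        show (1 / 2 : ℝ) • ‖K z‖ - 1 ≤ ‖K z / 4‖ ^ 2
        rw [norm_div, smul_eq_mul]
        have : ‖(4 : ℂ)‖ = 4 := by norm_num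
        rw [this]
        nlinarith [sq_nonneg (‖K z‖ / 4 - 1)])
    rw [Real.circleAverage_fun_sub hci3 (circleIntegrable_const (1 : ℝ) _ _),
      Real.circleAverage_fun_smul, Real.circleAverage_const, smul_eq_mul] at h5
    rw [← hKk] at hlow
    linarith

end Pool.Agent.H747ED
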