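import Mathlib
import Pool.Agent.H747ED.K0

/-!
A uniform bound of the infimum of the energies, for disks with any number of holes.
-/

set_option autoImplicit false

open Set Filter Topology MeasureTheory Metric
open scoped ContDiff ENNReal NNReal ComplexConjugate Real

namespace Pool.Agent.H747ED

open Pool.Agent.H366R3.ED Pool.Agent.H366R3 Pool.Agent.Helper930.WD

variable {P : Finset ℝ} {σ : ℝ}

lemma us_mapsP (hS : Sep P σ) {ρ : ℝ} (hρ : ρ ≤ σ) : MapsTo us (OmP P 1 ρ) (OmP P 4 ρ) := by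
  intro z hz
  obtain ⟨h1, h2⟩ := mem_OmP.1 hz
  have h8 := hS.le8
  rcases le_total ‖z‖ (3 / 4) with h | h
  · rw [us_small h]; exact mem_OmP.2 ⟨by linarith, h2⟩
  · have h4 := norm_us h
    refine mem_OmP.2 ⟨by rw [h4]; linarith, fun c hc => ?_⟩
    have h5 := tri1 (hS.ge c hc) (hS.le c hc) (us z)
    linarith

lemma vs_mapsP (hS : Sep P σ) {ρ : ℝ} (hρ : ρ ≤ σ) : MapsTo vs (OmP P 4 ρ) (OmP P 1 ρ) := by
  intro z hz
  obtain ⟨h1, h2⟩ := mem_OmP.1 hz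
  have h8 := hS.le8
  rcases le_total ‖z‖ (3 / 4) with h | h
  · rw [vs_small h]; exact mem_OmP.2 ⟨by linarith, h2⟩
  · have h4 := norm_vs h
    refine mem_OmP.2 ⟨by rw [h4]; linarith, fun c hc => ?_⟩
    have h5 := tri1 (hS.ge c hc) (hS.le c hc) (vs z)
    linarith

lemma us_sobolevP (hS : Sep P σ) {ρ : ℝ} (hρ : ρ ≤ σ) :
    IsSobolevHomeo (OmP P 1 ρ) (OmP P 4 ρ) us (fderiv ℝ us) := by
  have hfin : volume (OmP P 1 ρ) ≠ ⊤ :=
    (isBounded_ball.subset (OmP_sub (P := P) 1 ρ)).measure_lt_top.ne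
  have : IsFiniteMeasure (volume.restrict (OmP P 1 ρ) : Measure ℂ) := ⟨by
    rw [Measure.restrict_apply_univ]; exact hfin.lt_top⟩
  refine ⟨⟨us_mapsP hS hρ, ?_, ?_⟩, us_cont.continuousOn,
    ⟨vs, vs_cont.continuousOn, fun z _ => vs_us z⟩, ?_, ?_, ?_⟩
  · intro z _ w _ h
    rw [← vs_us z, h, vs_us]
  · intro w hw; exact ⟨vs w, vs_mapsP hS hρ hw, us_vs w⟩
  · apply weakDeriv_of_lip (OmP_open P 1 ρ)
    intro K hK _
    exact ⟨ball 0 1, isOpen_ball, hK.trans (OmP_sub 1 ρ), 20, us_lip⟩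
  · apply memLp_of_bdd (OmP_open P 1 ρ) hfin us_cont.continuousOn (C := 4)
    intro z hz
    exact (mem_OmP.1 (us_mapsP hS hρ hz)).1.le
  · apply MemLp.of_bound (measurable_fderiv ℝ us).aestronglyMeasurable 20
    rw [ae_restrict_iff' (OmP_open P 1 ρ).measurableSet]
    refine Eventually.of_forall fun z hz => ?_
    exact norm_fderiv_le_of_lipschitzOn ℝ (isOpen_ball.mem_nhds (OmP_sub 1 ρ hz)) us_lip

/-- a uniform bound of the infimum of the energies -/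
theorem energyInf_leP (hS : Sep P σ) {ρ : ℝ} (hρ : ρ ≤ σ) :
    energyInf (OmP P 1 ρ) (OmP P 4 ρ) ≤ ENNReal.ofReal (800 * π) := by
  have h1 : energyInf (OmP P 1 ρ) (OmP P 4 ρ) ≤ energy (OmP P 1 ρ) (fderiv ℝ us) :=
    iInf_le_of_le us (iInf_le_of_le (fderiv ℝ us) (iInf_le_of_le (us_sobolevP hS hρ) le_rfl))
  refine h1.trans ?_
  rw [energy]
  have h2 : ∀ z ∈ OmP P 1 ρ,
      ‖fderiv ℝ us z 1‖ₑ ^ 2 + ‖fderiv ℝ us z Complex.I‖ₑ ^ 2 ≤ (800 : ℝ≥0∞) := by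
    intro z hz
    have h3 : ‖fderiv ℝ us z‖ ≤ 20 :=
      norm_fderiv_le_of_lipschitzOn ℝ (isOpen_ball.mem_nhds (OmP_sub 1 ρ hz)) us_lip
    have h4 : ∀ v : ℂ, ‖v‖ = 1 → ‖fderiv ℝ us z v‖ₑ ^ 2 ≤ 400 := by
      intro v hv
      have h5 : ‖fderiv ℝ us z v‖ ≤ 20 := by
        have := (fderiv ℝ us z).le_opNorm v
        rw [hv, mul_one] at this
        linarith
      have h6 : ‖fderiv ℝ us z v‖ₑ ≤ 20 := by
        rw [← ofReal_norm]
        calc ENNReal.ofReal ‖fderiv ℝ us z v‖ ≤ ENNReal.ofReal 20 := ENNReal.ofReal_le_ofReal h5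
          _ = 20 := by norm_num
      calc ‖fderiv ℝ us z v‖ₑ ^ 2 ≤ 20 ^ 2 := by gcongr
        _ = 400 := by norm_num
    calc ‖fderiv ℝ us z 1‖ₑ ^ 2 + ‖fderiv ℝ us z Complex.I‖ₑ ^ 2 ≤ 400 + 400 :=
          add_le_add (h4 1 (by simp)) (h4 Complex.I (by simp))
      _ = 800 := by norm_num
  calc ∫⁻ z in OmP P 1 ρ, (‖fderiv ℝ us z 1‖ₑ ^ 2 + ‖fderiv ℝ us z Complex.I‖ₑ ^ 2)
      ≤ ∫⁻ z in OmP P 1 ρ, (800 : ℝ≥0∞) := setLIntegral_mono measurable_const h2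
    _ = 800 * volume (OmP P 1 ρ) := by rw [setLIntegral_const]
    _ ≤ 800 * volume (ball (0 : ℂ) 1) := by gcongr; exact OmP_sub 1 ρ
    _ = ENNReal.ofReal (800 * π) := by
        have hpi : ENNReal.ofReal π = (NNReal.pi : ℝ≥0∞) := by
          rw [← NNReal.coe_real_pi, ENNReal.ofReal_coe_nnreal]
        rw [Complex.volume_ball, ENNReal.ofReal_mul (by norm_num), hpi]
        simp

end Pool.Agent.H747ED
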