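import Mathlib
import Pool.Agent.H747ED.K3
import Pool.Agent.H747ED.K4
import Pool.Agent.H747ED.K5

set_option autoImplicit false

open Set Filter Topology MeasureTheory Metric
open scoped ContDiff ENNReal NNReal ComplexConjugate Real

namespace Pool.Agent.H747ED

open Pool.Agent.H366R3.ED Pool.Agent.H366R3

variable {P : Finset ℝ} {σ : ℝ}

/-- local bound -/
lemma loc_boundP {f : ℂ → ℂ} {ρ C : ℝ} (hf : DifferentiableOn ℂ f (OmP P 1 ρ))
    (hi : IntegrableOn (fun z => ‖f z‖ ^ 2) (OmP P 1 ρ)) (hC : ∫ z in OmP P 1 ρ, ‖f z‖ ^ 2 ≤ C)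
    {z : ℂ} {r : ℝ} (hr : 0 < r) (hb : ball z (2 * r) ⊆ OmP P 1 ρ) {w : ℂ} (hw : w ∈ ball z r) :
    ‖f w‖ ≤ C / (π * r ^ 2) + 1 := by
  have hπ := Real.pi_pos
  have hsub : ball w r ⊆ OmP P 1 ρ := by
    refine Subset.trans ?_ hb
    apply ball_subset_ball'
    rw [mem_ball] at hw
    linarith
  have h1 := holo_sq_le hr (hf.mono hsub) (hi.mono_set hsub)
  have h2 : ∫ z in ball w r, ‖f z‖ ^ 2 ≤ C :=
    (setIntegral_mono_set hi (Eventually.of_forall fun z => by positivity)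
      hsub.eventuallyLE).trans hC
  have h3 : ‖f w‖ ^ 2 ≤ C / (π * r ^ 2) := by
    rw [le_div_iff₀ (by positivity)]
    linarith
  nlinarith [sq_nonneg (‖f w‖ - 1)]

lemma conj_OmP {R ρ : ℝ} {z : ℂ} (hz : z ∈ OmP P R ρ) : conj z ∈ OmP P R ρ := by
  refine ⟨by rw [Complex.norm_conj]; exact hz.1, fun c hc => ?_⟩
  have e : conj z - (c : ℂ) = conj (z - (c : ℂ)) := by
    rw [map_sub, Complex.conj_ofReal]
  rw [e, Complex.norm_conj]
  exact hz.2 c hc

/-- the holes -/
def KP (P : Finset ℝ) (ρ : ℝ) : Set ℂ := ⋃ c ∈ P, closedBall (c : ℂ) ρ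

lemma KP_closed (P : Finset ℝ) (ρ : ℝ) : IsClosed (KP P ρ) :=
  P.finite_toSet.isClosed_biUnion fun _ _ => isClosed_closedBall

lemma mem_KP {ρ : ℝ} {z : ℂ} : z ∈ KP P ρ ↔ ∃ c ∈ P, ‖z - (c : ℂ)‖ ≤ ρ := by
  unfold KP
  simp only [mem_iUnion, mem_closedBall, dist_eq_norm, exists_prop]

lemma OmP_eq (R ρ : ℝ) : OmP P R ρ = ball 0 R \ KP P ρ := by
  ext z
  rw [Set.mem_sdiff, mem_ball_zero_iff, mem_KP, mem_OmP]
  push Not
  rfl

lemma conj_HP {R R' ρ : ℝ} {h g : ℂ → ℂ} (H : IsH (OmP P R ρ) (OmP P R' ρ) h g) :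
    IsH (OmP P R ρ) (OmP P R' ρ) (fun z => conj (h z)) (fun w => g (conj w)) := by
  refine ⟨Complex.continuous_conj.comp_continuousOn H.hc,
    H.gc.comp Complex.continuous_conj.continuousOn (fun w hw => conj_OmP hw),
    fun z hz => conj_OmP (H.hm hz), fun w hw => H.gm (conj_OmP hw), ?_, ?_⟩
  · intro z hz
    simp only [Complex.conj_conj]; exact H.gh z hz
  · intro w hw
    simp only [H.hg _ (conj_OmP hw), Complex.conj_conj]

set_option maxHeartbeats 1000000 in
theorem no_seqP (hS : Sep P σ) {ρ : ℕ → ℝ} (ρ0 : ∀ n, 0 < ρ n) (ρ8 : ∀ n, ρ n ≤ σ)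
    (ρa : Tendsto ρ atTop (𝓝 0)) {h : ℕ → ℂ → ℂ}
    (hmin : ∀ n, IsEnergyMinimalDiffeo (OmP P 1 (ρ n)) (OmP P 4 (ρ n)) (h n)) : False := by
  have hπ := Real.pi_pos
  set l : Ultrafilter ℕ := hyperfilter ℕ with hl
  have hle : (l : Filter ℕ) ≤ atTop := by
    rw [hl, ← Nat.cofinite_eq_atTop]; exact hyperfilter_le_cofinite
  have ρt : Tendsto ρ l (𝓝 0) := ρa.mono_left hle
  choose g H using fun n => isH_of (hmin n).1
  have hb : ∀ n, Bornology.IsBounded (OmP P 1 (ρ n)) := fun n => isBounded_ball.subset (OmP_sub _ _)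
  have hb' : ∀ n, Bornology.IsBounded (OmP P 4 (ρ n)) := fun n => isBounded_ball.subset (OmP_sub _ _)
  have C1 : ∀ n, ContDiffOn ℝ 1 (h n) (OmP P 1 (ρ n)) := fun n => (hmin n).1.1
  have hhol := fun n => hol (OmP_open P 1 (ρ n)) (OmP_open P 4 (ρ n)) (hb n) (hb' n) (hmin n)
  -- energy bounds
  have hLp := fun n => memLp_of_energy (OmP_open P 1 (ρ n)) (C1 n) (hmin n).2.2
  have hid := fun n => integrable_dens (hLp n)
  have hE : ∀ n, ∫ z in OmP P 1 (ρ n), dens (fderiv ℝ (h n) z) ≤ 800 * π := by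
    intro n
    have h1 := energyInf_leP hS (ρ8 n)
    rw [← (hmin n).2.1, energy_eq (hid n)] at h1
    exact (ENNReal.ofReal_le_ofReal_iff (by positivity)).1 h1
  have hm2 : ∀ n, IntegrableOn (fun z => ‖fderiv ℝ (h n) z‖ ^ 2) (OmP P 1 (ρ n)) := fun n =>
    (memLp_two_iff_integrable_sq_norm (hLp n).1).1 (hLp n)
  have hen : ∀ n, ∫ z in OmP P 1 (ρ n), ‖fderiv ℝ (h n) z‖ ^ 2 ≤ 1600 * π := by
    intro n
    have h1 : ∫ z in OmP P 1 (ρ n), ‖fderiv ℝ (h n) z‖ ^ 2 ≤
        ∫ z in OmP P 1 (ρ n), 2 * dens (fderiv ℝ (h n) z) :=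
      integral_mono (hm2 n) ((hid n).const_mul 2) fun z => norm_sq_le_dens _
    rw [integral_const_mul] at h1
    linarith [hE n]
  have hdens : ∀ n z, dens (fderiv ℝ (h n) z) = 2 * (‖dz (h n) z‖ ^ 2 + ‖cz (h n) z‖ ^ 2) := by
    intro n z
    rw [cz_norm, fderiv_eq_lin (h n) z, dens_lin]
  have hFm : ∀ n, IntegrableOn (fun z => ‖dz (h n) z‖ ^ 2) (OmP P 1 (ρ n)) := by
    intro n
    refine (hid n).mono' (((hhol n).1.continuousOn.norm.pow 2).aestronglyMeasurable
      (OmP_open _ _ _).measurableSet) (Eventually.of_forall fun z => ?_)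
    rw [hdens, Real.norm_of_nonneg (by positivity)]
    nlinarith [sq_nonneg ‖dz (h n) z‖, sq_nonneg ‖cz (h n) z‖]
  have hGm : ∀ n, IntegrableOn (fun z => ‖cz (h n) z‖ ^ 2) (OmP P 1 (ρ n)) := by
    intro n
    refine (hid n).mono' (((hhol n).2.continuousOn.norm.pow 2).aestronglyMeasurable
      (OmP_open _ _ _).measurableSet) (Eventually.of_forall fun z => ?_)
    rw [hdens, Real.norm_of_nonneg (by positivity)]
    nlinarith [sq_nonneg ‖dz (h n) z‖, sq_nonneg ‖cz (h n) z‖]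
  have hFE : ∀ n, ∫ z in OmP P 1 (ρ n), ‖dz (h n) z‖ ^ 2 ≤ 800 * π := by
    intro n
    refine (integral_mono (hFm n) (hid n) fun z => ?_).trans (hE n)
    simp only
    rw [hdens]
    nlinarith [sq_nonneg ‖dz (h n) z‖, sq_nonneg ‖cz (h n) z‖]
  have hGE : ∀ n, ∫ z in OmP P 1 (ρ n), ‖cz (h n) z‖ ^ 2 ≤ 800 * π := by
    intro n
    refine (integral_mono (hGm n) (hid n) fun z => ?_).trans (hE n)
    simp only
    rw [hdens]
    nlinarith [sq_nonneg ‖dz (h n) z‖, sq_nonneg ‖cz (h n) z‖]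
  -- local balls
  have hballs : ∀ z ∈ OmP P 1 0, ∃ r > 0, ∀ᶠ n in (l : Filter ℕ), ball z (2 * r) ⊆ OmP P 1 (ρ n) := by
    intro z hz
    obtain ⟨r, hr, hrO⟩ := Metric.isOpen_iff.1 (OmP_open P 1 0) z hz
    refine ⟨r / 4, by positivity, ?_⟩
    have h1 : closedBall z (r / 2) ⊆ OmP P 1 0 := (closedBall_subset_ball (by linarith)).trans hrO
    filter_upwards [compact_inP (isCompact_closedBall z (r / 2)) h1 ρt] with n hn
    have e : 2 * (r / 4) = r / 2 := by ring
    rw [e]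
    exact ball_subset_closedBall.trans hn
  have hBF : ∀ z ∈ OmP P 1 0, ∃ r > 0, ∃ B : ℝ, ∀ᶠ n in (l : Filter ℕ),
      ball z (2 * r) ⊆ OmP P 1 (ρ n) ∧ (∀ w ∈ ball z r, ‖dz (h n) w‖ ≤ B) ∧
        ∀ w ∈ ball z r, ‖cz (h n) w‖ ≤ B := by
    intro z hz
    obtain ⟨r, hr, hev⟩ := hballs z hz
    refine ⟨r, hr, 800 * π / (π * r ^ 2) + 1, ?_⟩
    filter_upwards [hev] with n hn
    exact ⟨hn, fun w hw => loc_boundP (hhol n).1 (hFm n) (hFE n) hr hn hw,
      fun w hw => loc_boundP (hhol n).2 (hGm n) (hGE n) hr hn hw⟩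
  obtain ⟨f, hfd, ccf⟩ := holo_limit l (OmP_open P 1 0) (F := fun n => dz (h n)) (by
    intro z hz
    obtain ⟨r, hr, B, hev⟩ := hBF z hz
    refine ⟨r, hr, B, ?_⟩
    filter_upwards [hev] with n hn
    exact ⟨(hhol n).1.mono ((ball_subset_ball (by linarith)).trans hn.1), hn.2.1⟩)
  obtain ⟨c, hcd, ccc⟩ := holo_limit l (OmP_open P 1 0) (F := fun n => cz (h n)) (by
    intro z hz
    obtain ⟨r, hr, B, hev⟩ := hBF z hz
    refine ⟨r, hr, B, ?_⟩
    filter_upwards [hev] with n hn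
    exact ⟨(hhol n).2.mono ((ball_subset_ball (by linarith)).trans hn.1), hn.2.2⟩)
  obtain ⟨k, cck⟩ := lip_limit l (V := OmP P 1 0) (H := h) (by
    intro z hz
    obtain ⟨r, hr, B, hev⟩ := hBF z hz
    refine ⟨r, hr, 2 * B, 4, ?_⟩
    filter_upwards [hev] with n hn
    have hsub : ball z r ⊆ OmP P 1 (ρ n) := (ball_subset_ball (by linarith)).trans hn.1
    refine ⟨(mem_OmP.1 ((H n).hm (hsub (mem_ball_self hr)))).1.le, fun w hw => ?_⟩
    apply (convex_ball z r).norm_image_sub_le_of_norm_fderiv_le (𝕜 := ℝ) (f := h n) ?_ ?_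
      (mem_ball_self hr) hw
    · intro x hx
      exact ((C1 n).differentiableOn one_ne_zero).differentiableAt
        ((OmP_open _ _ _).mem_nhds (hsub hx))
    · intro x hx
      rw [fderiv_eq_lin]
      refine (norm_lin_le _ _).trans ?_
      rw [← cz_norm]
      linarith [hn.2.1 x hx, hn.2.2 x hx])
  have hfc := ccf.continuousOn (OmP_open P 1 0)
  have hcc := ccc.continuousOn (OmP_open P 1 0)
  -- the limits are square integrable
  have hL2 : ∀ (F : ℕ → ℂ → ℂ) (F0 : ℂ → ℂ), CC l (OmP P 1 0) F F0 → ContinuousOn F0 (OmP P 1 0) →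
      (∀ n, ContinuousOn (F n) (OmP P 1 (ρ n))) →
      (∀ n, IntegrableOn (fun z => ‖F n z‖ ^ 2) (OmP P 1 (ρ n))) →
      (∀ n, ∫ z in OmP P 1 (ρ n), ‖F n z‖ ^ 2 ≤ 800 * π) →
      ∀ K, IsCompact K → K ⊆ OmP P 1 0 → ∫ z in K, ‖F0 z‖ ^ 2 ≤ 800 * π := by
    intro F F0 hF hF0 hFc hFi hFE K hK hKO
    have h1 : CC l (OmP P 1 0) (fun n z => ‖F n z‖ ^ 2) (fun z => ‖F0 z‖ ^ 2) :=
      fun z hz => ((hF z hz).norm).pow 2
    have h2 := h1.setIntegral (OmP_open P 1 0) (hF0.norm.pow 2) hK hKO (by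
      filter_upwards [compact_inP hK hKO ρt] with n hn
      exact ((hFc n).mono hn).norm.pow 2)
    apply le_of_tendsto h2
    filter_upwards [compact_inP hK hKO ρt] with n hn
    exact (setIntegral_mono_set (hFi n) (Eventually.of_forall fun z => by positivity)
      hn.eventuallyLE).trans (hFE n)
  obtain ⟨hfi, -⟩ := exhaustP hS hfc (hL2 _ f ccf hfc (fun n => (hhol n).1.continuousOn) hFm hFE)
  obtain ⟨hci, -⟩ := exhaustP hS hcc (hL2 _ c ccc hcc (fun n => (hhol n).2.continuousOn) hGm hGE)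
  obtain ⟨f', hf'd, hf'e⟩ := extP hS hfd (L2_decP hS hfd hfi)
  obtain ⟨c', hc'd, hc'e⟩ := extP hS hcd (L2_decP hS hcd hci)
  -- the Hopf differential of the limit vanishes
  have hs0 : (0 : ℝ) < 7 / 8 := by norm_num
  have hsI : (7 / 8 : ℝ) ∈ Ioo (3 / 4 : ℝ) 1 := ⟨by norm_num, by norm_num⟩
  have hsph : ∀ ρ' : ℝ, ρ' ≤ σ → sphere (0 : ℂ) |(7 / 8 : ℝ)| ⊆ OmP P 1 ρ' := by
    intro ρ' hρ' z hz
    rw [mem_sphere_zero_iff_norm, abs_of_pos hs0] at hz
    exact ann_sub_OmP hS hρ' ⟨by rw [hz]; norm_num, by rw [hz]; norm_num⟩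
  have hzne : ∀ z ∈ OmP P 1 0, z ≠ 0 := by
    rintro z hz rfl
    have := (mem_OmP.1 hz).2 0 hS.h0
    rw [Complex.ofReal_zero, sub_zero, norm_zero] at this
    exact lt_irrefl _ this
  have hΦcc : CC l (OmP P 1 0) (fun n z => dz (h n) z * cz (h n) z) (fun z => f z * c z) := ccf.mul ccc
  have hrel : ∀ m : ℕ, Real.circleAverage (fun z => (f z * c z) * (z ^ m)⁻¹) 0 (7 / 8) =
      conj (Real.circleAverage (fun z => (f z * c z) * z ^ (m + 4)) 0 (7 / 8)) := by
    intro m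
    have g1 : ContinuousOn (fun z : ℂ => (z ^ m)⁻¹) (OmP P 1 0) :=
      (continuous_pow m).continuousOn.inv₀ fun z hz => pow_ne_zero _ (hzne z hz)
    have g2 : ContinuousOn (fun z : ℂ => z ^ (m + 4)) (OmP P 1 0) := (continuous_pow _).continuousOn
    have a1 := (hΦcc.mul_fun (OmP_open P 1 0) g1).avg (OmP_open P 1 0) ((hfc.mul hcc).mul g1)
      (hsph 0 hS.pos.le) (Eventually.of_forall fun n =>
        (((hhol n).1.continuousOn.mul (hhol n).2.continuousOn).mono (hsph _ (ρ8 n))).mul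
          (g1.mono (hsph 0 hS.pos.le)))
    have a2 := (hΦcc.mul_fun (OmP_open P 1 0) g2).avg (OmP_open P 1 0) ((hfc.mul hcc).mul g2)
      (hsph 0 hS.pos.le) (Eventually.of_forall fun n =>
        (((hhol n).1.continuousOn.mul (hhol n).2.continuousOn).mono (hsph _ (ρ8 n))).mul
          (g2.mono (hsph 0 hS.pos.le)))
    have a3 := (Complex.continuous_conj.tendsto _).comp a2
    refine tendsto_nhds_unique (a1.congr fun n => ?_) a3
    have hK34 : KP P (ρ n) ⊆ closedBall 0 (3 / 4) := by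
      have h1 := ρ8 n
      have h2 := hS.le8
      intro z hz
      obtain ⟨c, hc, hz⟩ := mem_KP.1 hz
      have := tri1 (hS.ge c hc) (hS.le c hc) z
      rw [mem_closedBall_zero_iff]; linarith
    have hmin' := hmin n
    rw [OmP_eq 1 (ρ n)] at hmin'
    exact laurent (KP_closed P (ρ n)) hK34 (OmP_open P 4 (ρ n)) (hb' n) hmin' m hsI
  have hΦ'd : DifferentiableOn ℂ (fun z => f' z * c' z) (ball 0 1) := hf'd.mul hc'd
  have hΦe : ∀ z ∈ OmP P 1 0, f' z * c' z = f z * c z := fun z hz => by rw [hf'e hz, hc'e hz]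
  have hzero : ∀ z ∈ ball (0 : ℂ) (7 / 8), f' z * c' z = 0 := by
    apply zero_of_avg hΦ'd hs0 (by norm_num)
    intro m
    have e1 : Real.circleAverage (fun z => f' z * c' z * (z ^ m)⁻¹) 0 (7 / 8) =
        Real.circleAverage (fun z => (f z * c z) * (z ^ m)⁻¹) 0 (7 / 8) := by
      apply Real.circleAverage_congr_sphere
      intro z hz
      simp only
      rw [hΦe z (hsph 0 hS.pos.le hz)]
    have e2 : Real.circleAverage (fun z => (f z * c z) * z ^ (m + 4)) 0 (7 / 8) =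
        Real.circleAverage (fun z => f' z * c' z * z ^ (m + 4)) 0 (7 / 8) := by
      apply Real.circleAverage_congr_sphere
      intro z hz
      simp only
      rw [hΦe z (hsph 0 hS.pos.le hz)]
    have hsub : closedBall (0 : ℂ) |(7 / 8 : ℝ)| ⊆ ball 0 1 := by
      rw [abs_of_pos hs0]; exact closedBall_subset_ball (by norm_num)
    have hd : DifferentiableOn ℂ (fun z => f' z * c' z * z ^ (m + 4)) (ball 0 1) :=
      hΦ'd.mul (differentiable_id.pow _).differentiableOn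
    have e3 : Real.circleAverage (fun z => f' z * c' z * z ^ (m + 4)) 0 (7 / 8) = 0 := by
      rw [circleAverage_of_differentiable_on_off_countable countable_empty
        (hd.continuousOn.mono hsub) (fun z hz => hd.differentiableAt
          (isOpen_ball.mem_nhds (hsub (ball_subset_closedBall hz.1))))]
      simp
    rw [e1, hrel m, e2, e3, map_zero]
  -- one of the factors vanishes
  have hfa : AnalyticOnNhd ℂ f' (ball 0 1) := hf'd.analyticOnNhd isOpen_ball
  have hca : AnalyticOnNhd ℂ c' (ball 0 1) := hc'd.analyticOnNhd isOpen_ball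
  have hsub78 : ball (0 : ℂ) (7 / 8) ⊆ ball 0 1 := ball_subset_ball (by norm_num)
  have h0mem : (0 : ℂ) ∈ ball (0 : ℂ) 1 := mem_ball_self one_pos
  have hcases : (∀ z ∈ OmP P 1 0, f z = 0) ∨ (∀ z ∈ OmP P 1 0, c z = 0) := by
    rcases (hfa.mono hsub78).eq_zero_or_eq_zero_of_mul_eq_zero (hca.mono hsub78) hzero
      (convex_ball (0 : ℂ) (7 / 8)).isPreconnected with h1 | h1
    · left
      have h2 := hfa.eqOn_zero_of_preconnected_of_eventuallyEq_zero
        (convex_ball (0 : ℂ) 1).isPreconnected h0mem (by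
          filter_upwards [isOpen_ball.mem_nhds (mem_ball_self (x := (0:ℂ)) hs0)] with z hz
          exact h1 z hz)
      intro z hz
      rw [← hf'e hz]
      exact h2 (OmP_sub 1 0 hz)
    · right
      have h2 := hca.eqOn_zero_of_preconnected_of_eventuallyEq_zero
        (convex_ball (0 : ℂ) 1).isPreconnected h0mem (by
          filter_upwards [isOpen_ball.mem_nhds (mem_ball_self (x := (0:ℂ)) hs0)] with z hz
          exact h1 z hz)
      intro z hz
      rw [← hc'e hz]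
      exact h2 (OmP_sub 1 0 hz)
  rcases hcases with hz0 | hz0
  · -- the limit is antiholomorphic: conjugate
    refine (mkDataP (l := l) (ρ := ρ) (h := fun n z => conj (h n z)) (g := fun n w => g n (conj w))
      (k := fun z => conj (k z)) (f := c) hS ρ0 ρ8 ρt (fun n => conj_HP (H n)) (fun n => ?_) (fun n => ?_)
      (fun n => ?_) (cck.comp Complex.continuous_conj) ?_ ?_).false
    · exact Complex.conjCLE.contDiff.comp_contDiffOn (C1 n)
    · simp_rw [norm_fderiv_conj]; exact hm2 n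
    · simp_rw [norm_fderiv_conj]; exact hen n
    · intro z hz
      simp_rw [dz_conj]; exact ccc z hz
    · intro z hz
      simp_rw [dzb_conj]
      have := (Complex.continuous_conj.tendsto _).comp (ccf z hz)
      rw [hz0 z hz, map_zero] at this
      exact this
  · refine (mkDataP (l := l) (ρ := ρ) (h := h) (g := g) (k := k) (f := f) hS ρ0 ρ8 ρt H C1 hm2 hen cck
      ccf ?_).false
    intro z hz
    have := (Complex.continuous_conj.tendsto _).comp (ccc z hz)
    rw [hz0 z hz, map_zero] at this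
    refine this.congr fun p => ?_
    simp [cz]

end Pool.Agent.H747ED
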